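import Mathlib

/-! Transfinite choices (MP_c06a36_lc). -/

universe u v

open Cardinal Ordinal

namespace Pool.Agent.R361.AB

lemma rec_choice {ι : Type u} [LinearOrder ι] [WellFoundedLT ι] {T : Type v}
    (Good : ι → Set T → T → Prop) (h : ∀ i (x : ι → T), ∃ y, Good i (x '' Set.Iio i) y)
    (t0 : T) :
    ∃ x : ι → T, ∀ i, Good i (x '' Set.Iio i) (x i) := by
  classical
  let step : ∀ i : ι, (∀ j, j < i → T) → T := fun i f =>
    (h i (fun j => if hj : j < i then f j hj else t0)).choose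
  let x : ι → T := (wellFounded_lt (α := ι)).fix step
  refine ⟨x, fun i => ?_⟩
  have e1 : x i = step i (fun j _ => x j) := WellFounded.fix_eq _ _ _
  have h2 := (h i (fun j => if hj : j < i then x j else t0)).choose_spec
  have e2 : (fun j => if hj : j < i then x j else t0) '' Set.Iio i = x '' Set.Iio i := by
    apply Set.image_congr
    intro j hj
    rw [dif_pos (Set.mem_Iio.1 hj)]
  rw [e1]
  exact e2 ▸ h2

lemma exists_sdr {J : Type u} {T : Type u} (κ : Cardinal.{u}) (hJ : #J ≤ κ) (P : J → Set T)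
    (hP : ∀ j, κ ≤ #(P j)) : ∃ k : J → T, Function.Injective k ∧ ∀ j, k j ∈ P j := by
  classical
  rcases isEmpty_or_nonempty J with hJe | ⟨⟨j0⟩⟩
  · exact ⟨fun j => (hJe.false j).elim, fun j => (hJe.false j).elim, fun j => (hJe.false j).elim⟩
  obtain ⟨e⟩ : Nonempty (J ≃ (#J).ord.ToType) := Cardinal.eq.1 (by simp)
  have hne : ∀ j, (P j).Nonempty := by
    intro j
    rw [← Set.nonempty_coe_sort, ← mk_ne_zero_iff]
    have h1 : 1 ≤ #J := by
      rw [Cardinal.one_le_iff_ne_zero, mk_ne_zero_iff]; exact ⟨j0⟩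
    exact (Cardinal.one_le_iff_ne_zero.1 (h1.trans (hJ.trans (hP j))))
  obtain ⟨x, hx⟩ := rec_choice (ι := (#J).ord.ToType) (T := T)
    (fun i A y => y ∈ P (e.symm i) ∧ y ∉ A) (by
      intro i x
      by_contra hcon
      push Not at hcon
      have hsub : P (e.symm i) ⊆ x '' Set.Iio i := fun y hy => hcon y hy
      have h1 := Cardinal.mk_le_mk_of_subset hsub
      have h2 : #(x '' Set.Iio i) < #J := by
        refine Cardinal.mk_image_le.trans_lt ?_
        simpa using mk_Iio_lt i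
      exact absurd (hJ.trans (hP _)) (not_le.2 (h1.trans_lt h2))) (hne j0).some
  refine ⟨fun j => x (e j), ?_, fun j => by simpa using (hx (e j)).1⟩
  intro a b hab
  by_contra hne'
  have hne2 : e a ≠ e b := fun h => hne' (e.injective h)
  rcases lt_or_gt_of_ne hne2 with h | h
  · exact (hx (e b)).2 ⟨e a, h, hab⟩
  · exact (hx (e a)).2 ⟨e b, h, hab.symm⟩

lemma exists_closed {S I : Type*} (A0 : S) (i0 : I) (nx : S → I → S) (rr : S → I → I) :
    ∃ (R : Set S) (D : Set I), D.Countable ∧ A0 ∈ R ∧ i0 ∈ D ∧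
      ∀ A ∈ R, ∀ i ∈ D, nx A i ∈ R ∧ rr A i ∈ D := by
  let q : ℕ → Set S × Set I := fun n => Nat.rec ({A0}, {i0})
    (fun _ p => (p.1 ∪ Set.image2 nx p.1 p.2, p.2 ∪ Set.image2 rr p.1 p.2)) n
  have q0 : q 0 = ({A0}, {i0}) := rfl
  have qs : ∀ n, q (n + 1) = ((q n).1 ∪ Set.image2 nx (q n).1 (q n).2,
    (q n).2 ∪ Set.image2 rr (q n).1 (q n).2) := fun n => rfl
  have m1 : Monotone fun n => (q n).1 := monotone_nat_of_le_succ fun n => by
    rw [qs]; exact Set.subset_union_left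
  have m2 : Monotone fun n => (q n).2 := monotone_nat_of_le_succ fun n => by
    rw [qs]; exact Set.subset_union_left
  have hc : ∀ n, (q n).1.Countable ∧ (q n).2.Countable := by
    intro n
    induction n with
    | zero => rw [q0]; exact ⟨Set.countable_singleton _, Set.countable_singleton _⟩
    | succ n ih =>
      rw [qs]
      exact ⟨ih.1.union (ih.1.image2 ih.2 _), ih.2.union (ih.1.image2 ih.2 _)⟩
  refine ⟨⋃ n, (q n).1, ⋃ n, (q n).2, Set.countable_iUnion fun n => (hc n).2,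
    Set.mem_iUnion.2 ⟨0, by rw [q0]; exact rfl⟩, Set.mem_iUnion.2 ⟨0, by rw [q0]; exact rfl⟩, ?_⟩
  intro A hA i hi
  obtain ⟨n, hn⟩ := Set.mem_iUnion.1 hA
  obtain ⟨m, hm⟩ := Set.mem_iUnion.1 hi
  have hn' := m1 (le_max_left n m) hn
  have hm' := m2 (le_max_right n m) hm
  refine ⟨Set.mem_iUnion.2 ⟨max n m + 1, ?_⟩, Set.mem_iUnion.2 ⟨max n m + 1, ?_⟩⟩
  · rw [qs]; exact Or.inr (Set.mem_image2_of_mem hn' hm')
  · rw [qs]; exact Or.inr (Set.mem_image2_of_mem hn' hm')

end Pool.Agent.R361.AB
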