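import Mathlib
import Pool.Agent.R361.AB.AC1

/-! An increasing family of null `Gδ` sets with non-null union (MP_c06a36_lc). -/

open Cardinal Ordinal MeasureTheory
open scoped ENNReal

namespace Pool.Agent.R361.AB

lemma exists_hull (A : Set ℝ) : ∃ O : ℕ → Set ℝ, (∀ m, IsOpen (O m)) ∧ (∀ m, A ⊆ O m) ∧
    (volume A = 0 → volume (⋂ m, O m) = 0) := by
  have h : ∀ m : ℕ, ∃ U : Set ℝ, A ⊆ U ∧ IsOpen U ∧ volume U ≤ volume A + (m + 1 : ℝ≥0∞)⁻¹ := by
    intro m
    exact A.exists_isOpen_le_add _ (by simp)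
  choose U hU1 hU2 hU3 using h
  refine ⟨U, hU2, hU1, fun h0 => ?_⟩
  have h1 : ∀ m : ℕ, volume (⋂ m, U m) ≤ (m + 1 : ℝ≥0∞)⁻¹ := by
    intro m
    refine (measure_mono (Set.iInter_subset _ m)).trans ((hU3 m).trans ?_)
    rw [h0, zero_add]
  have h2 : Filter.Tendsto (fun m : ℕ => (m + 1 : ℝ≥0∞)⁻¹) Filter.atTop (nhds 0) := by
    have := (Filter.tendsto_add_atTop_iff_nat 1).2 ENNReal.tendsto_inv_nat_nhds_zero
    simpa using this
  exact le_antisymm (ge_of_tendsto' h2 h1) zero_le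

/-- A cofinal subset of the least ordinal of cardinality `𝔠`. -/
lemma exists_cofinal : ∃ S : Set (𝔠 : Cardinal.{0}).ord.ToType,
    #S = (𝔠 : Cardinal.{0}).ord.cof ∧ ∀ a, ∃ b ∈ S, a ≤ b := by
  obtain ⟨S, h1, h2⟩ := Order.exists_cof_eq (𝔠 : Cardinal.{0}).ord.ToType
  exact ⟨S, by rw [h2, Ordinal.cof_toType], fun a => h1 a⟩

theorem exists_family (S : Set (𝔠 : Cardinal.{0}).ord.ToType) (hS : ∀ a, ∃ b ∈ S, a ≤ b)
    (hnon : ∀ Y : Set ℝ, #Y < 𝔠 → volume Y = 0) :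
    ∃ (I : Type) (_ : LinearOrder I) (_ : WellFoundedLT I) (O : I → ℕ → Set ℝ), #I ≤ #S ∧
      (∀ i m, IsOpen (O i m)) ∧ (Monotone fun i => ⋂ m, O i m) ∧
      (∀ i, volume (⋂ m, O i m) = 0) ∧ volume (⋃ i, ⋂ m, O i m) ≠ 0 := by
  choose H hH1 hH2 hH3 using exists_hull
  obtain ⟨e⟩ : Nonempty (ℝ ≃ (𝔠 : Cardinal.{0}).ord.ToType) := Cardinal.eq.1 (by
    rw [Cardinal.mk_real]; simp)
  let W : S → Set ℝ := fun s => {t | e t ≤ s.1}
  have hW : ∀ s, #(W s) < 𝔠 := by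
    intro s
    have h1 : #(W s) ≤ #(Set.Iic s.1) := by
      refine Cardinal.mk_le_of_injective (f := fun t : W s => (⟨e t.1, t.2⟩ : Set.Iic s.1)) ?_
      intro a b hab
      exact Subtype.ext (e.injective (congrArg Subtype.val hab))
    refine h1.trans_lt ?_
    have h2 : #(Set.Iic s.1) ≤ #(Set.Iio s.1) + 1 := by
      rw [← Set.Iio_insert]
      exact Cardinal.mk_insert_le
    refine h2.trans_lt (add_lt_of_lt aleph0_le_continuum (by simpa using mk_Iio_lt s.1)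
      (one_lt_aleph0.trans_le aleph0_le_continuum))
  let step : ∀ s : S, (∀ t, t < s → ℕ → Set ℝ) → ℕ → Set ℝ := fun s f =>
    H (W s ∪ ⋃ t, ⋃ ht : t < s, ⋂ m, f t ht m)
  let O : S → ℕ → Set ℝ := (wellFounded_lt (α := S)).fix step
  have hO : ∀ s, O s = H (W s ∪ ⋃ t, ⋃ _ : t < s, ⋂ m, O t m) := fun s =>
    WellFounded.fix_eq _ _ _
  set C : S → Set ℝ := fun s => ⋂ m, O s m with hC
  have hsub : ∀ s, W s ∪ (⋃ t, ⋃ _ : t < s, C t) ⊆ C s := by
    intro s
    have h1 : C s = ⋂ m, H (W s ∪ ⋃ t, ⋃ _ : t < s, C t) m := by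
      simp only [hC]
      rw [hO s]
    rw [h1]
    exact Set.subset_iInter fun m => hH2 _ m
  have hmono : ∀ s t, s < t → C s ⊆ C t := by
    intro s t hst
    refine Set.Subset.trans ?_ (hsub t)
    exact fun x hx => Or.inr (Set.mem_iUnion₂.2 ⟨s, hst, hx⟩)
  have hnull : ∀ s, volume (⋃ t, ⋃ _ : t < s, C t) = 0 → volume (C s) = 0 := by
    intro s h
    have h1 : C s = ⋂ m, H (W s ∪ ⋃ t, ⋃ _ : t < s, C t) m := by
      simp only [hC]
      rw [hO s]
    rw [h1]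
    apply hH3
    exact measure_union_null (hnon _ (hW s)) h
  refine ⟨{s : S // volume (C s) = 0}, inferInstance, inferInstance, fun s => O s.1,
    Cardinal.mk_subtype_le _, fun i m => ?_, ?_, fun i => i.2, ?_⟩
  · change IsOpen (O i.1 m)
    rw [hO i.1]
    exact hH1 _ m
  · intro s t hst
    rcases hst.eq_or_lt with h | h
    · rw [h]
    · exact hmono s.1 t.1 h
  · intro h0
    by_cases hall : ∀ s, volume (C s) = 0
    · have h1 : (⋃ i : {s : S // volume (C s) = 0}, ⋂ m, O i.1 m) = Set.univ := by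
        rw [Set.eq_univ_iff_forall]
        intro t
        obtain ⟨b, hb, hab⟩ := hS (e t)
        refine Set.mem_iUnion.2 ⟨⟨⟨b, hb⟩, hall _⟩, ?_⟩
        exact hsub ⟨b, hb⟩ (Or.inl hab)
      rw [h1] at h0
      simp at h0
    · push Not at hall
      obtain ⟨s, hs, hmin⟩ := (wellFounded_lt (α := S)).has_min {s | volume (C s) ≠ 0} hall
      apply hs
      apply hnull
      refine measure_mono_null ?_ h0
      refine Set.iUnion₂_subset fun t ht => ?_
      have h2 : volume (C t) = 0 := by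
        by_contra h
        exact hmin t h ht
      exact Set.subset_iUnion (fun i : {s : S // volume (C s) = 0} => ⋂ m, O i.1 m) ⟨t, h2⟩

end Pool.Agent.R361.AB
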