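import Mathlib

/-! Product measure on sequences and the one-step lemma (MP_c06a36_lc). -/

open Cardinal MeasureTheory
open scoped ENNReal

namespace Pool.Agent.R361.AB

/-- Put `t` in front of the sequence `x`. -/
def cons (t : ℝ) (x : ℕ → ℝ) : ℕ → ℝ := fun n => Nat.casesOn n t x

lemma cons_zero (t : ℝ) (x : ℕ → ℝ) : cons t x 0 = t := rfl
lemma cons_succ (t : ℝ) (x : ℕ → ℝ) (n : ℕ) : cons t x (n + 1) = x n := rfl

lemma measurable_cons : Measurable (fun p : ℝ × (ℕ → ℝ) => cons p.1 p.2) := by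
  refine measurable_pi_lambda _ fun n => ?_
  cases n with
  | zero => exact measurable_fst
  | succ n => exact (measurable_pi_apply n).comp measurable_snd

section

variable (μ : Measure ℝ) [IsProbabilityMeasure μ]

/-- The product measure. -/
noncomputable abbrev rho : Measure (ℕ → ℝ) := Measure.infinitePi fun _ : ℕ => μ

lemma rho_pi_range (N : ℕ) (t : ℕ → Set ℝ) (ht : ∀ i, MeasurableSet (t i)) :
    rho μ (Set.pi (Finset.range N : Set ℕ) t) = ∏ i ∈ Finset.range N, μ (t i) :=
  Measure.infinitePi_pi _ fun i _ => ht i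

lemma map_cons : (μ.prod (rho μ)).map (fun p : ℝ × (ℕ → ℝ) => cons p.1 p.2) = rho μ := by
  classical
  apply Measure.eq_infinitePi
  intro s t ht
  obtain ⟨N, hN⟩ : ∃ N, s ⊆ Finset.range (N + 1) :=
    ⟨s.sup id, fun i hi => Finset.mem_range.2 (Nat.lt_succ_of_le (Finset.le_sup (f := id) hi))⟩
  set t' : ℕ → Set ℝ := fun i => if i ∈ s then t i else Set.univ with ht'
  have ht'm : ∀ i, MeasurableSet (t' i) := by
    intro i
    simp only [ht']
    split_ifs
    · exact ht i
    · exact MeasurableSet.univ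
  have e1 : Set.pi (s : Set ℕ) t = Set.pi (Finset.range (N + 1) : Set ℕ) t' := by
    ext x
    simp only [Set.mem_pi, ht']
    constructor
    · intro h i _
      split_ifs with hi
      · exact h i hi
      · trivial
    · intro h i hi
      have := h i (hN hi)
      rwa [if_pos (Finset.mem_coe.1 hi)] at this
  have e2 : ∏ i ∈ s, μ (t i) = ∏ i ∈ Finset.range (N + 1), μ (t' i) := by
    rw [← Finset.prod_subset hN]
    · apply Finset.prod_congr rfl
      intro i hi
      simp only [ht']
      rw [if_pos hi]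
    · intro i _ hi
      simp only [ht']
      rw [if_neg hi, measure_univ]
  rw [e1, e2, Measure.map_apply measurable_cons
    (MeasurableSet.pi (Finset.countable_toSet _) fun i _ => ht'm i)]
  have e3 : (fun p : ℝ × (ℕ → ℝ) => cons p.1 p.2) ⁻¹' (Set.pi (Finset.range (N + 1) : Set ℕ) t') =
      t' 0 ×ˢ Set.pi (Finset.range N : Set ℕ) (fun i => t' (i + 1)) := by
    ext ⟨a, x⟩
    simp only [Set.mem_preimage, Set.mem_pi, Finset.coe_range, Set.mem_Iio, Set.mem_prod]
    constructor
    · intro h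
      exact ⟨h 0 (Nat.succ_pos _), fun i hi => h (i + 1) (Nat.succ_lt_succ hi)⟩
    · rintro ⟨h1, h2⟩ i hi
      cases i with
      | zero => exact h1
      | succ i => exact h2 i (Nat.lt_of_succ_lt_succ hi)
  rw [e3, Measure.prod_prod, rho_pi_range μ N _ fun i => ht'm (i + 1), Finset.prod_range_succ',
    mul_comm]

lemma one_step {A : Set (ℕ → ℝ)} (hA : MeasurableSet A) (h1 : rho μ A < 1) {G : Set ℝ}
    (hG : ∀ B : Set ℝ, MeasurableSet B → μ B ≠ 0 → ∃ x ∈ B, x ∈ G) :
    ∃ x ∈ G, rho μ {y | cons x y ∈ A} < 1 := by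
  have hA' : MeasurableSet ((fun p : ℝ × (ℕ → ℝ) => cons p.1 p.2) ⁻¹' A) := measurable_cons hA
  have e1 : rho μ A = ∫⁻ x, rho μ {y | cons x y ∈ A} ∂μ := by
    conv_lhs => rw [← map_cons μ]
    rw [Measure.map_apply measurable_cons hA, Measure.prod_apply hA']
    rfl
  have hm : Measurable fun x => rho μ {y | cons x y ∈ A} := measurable_measure_prodMk_left hA'
  have hB : μ {x | rho μ {y | cons x y ∈ A} < 1} ≠ 0 := by
    intro h0
    have h2 : ∀ᵐ x ∂μ, 1 ≤ rho μ {y | cons x y ∈ A} := by
      rw [ae_iff]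
      simp only [not_le]
      exact h0
    have h3 : 1 ≤ ∫⁻ x, rho μ {y | cons x y ∈ A} ∂μ := by
      calc (1 : ℝ≥0∞) = ∫⁻ _, 1 ∂μ := by simp
        _ ≤ _ := lintegral_mono_ae h2
    rw [← e1] at h3
    exact absurd h3 (not_le.2 h1)
  obtain ⟨x, hx1, hx2⟩ := hG _ (measurableSet_lt hm measurable_const) hB
  exact ⟨x, hx2, hx1⟩

lemma rho_perm (π : Equiv.Perm ℕ) :
    MeasurePreserving (fun (x : ℕ → ℝ) n => x (π n)) (rho μ) (rho μ) := by
  classical
  have hm : Measurable (fun (x : ℕ → ℝ) n => x (π n)) :=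
    measurable_pi_lambda _ fun n => measurable_pi_apply _
  refine ⟨hm, ?_⟩
  apply Measure.eq_infinitePi
  intro s t ht
  rw [Measure.map_apply hm (MeasurableSet.pi (Finset.countable_toSet _) fun i _ => ht i)]
  have e1 : (fun (x : ℕ → ℝ) n => x (π n)) ⁻¹' (Set.pi (s : Set ℕ) t) =
      Set.pi ((s.map π.toEmbedding : Finset ℕ) : Set ℕ) (fun i => t (π.symm i)) := by
    ext x
    simp only [Set.mem_preimage, Set.mem_pi, Finset.coe_map, Set.mem_image, Finset.mem_coe]
    constructor
    · rintro h i ⟨j, hj, rfl⟩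
      have := h j hj
      have e : π.symm (π.toEmbedding j) = j := π.symm_apply_apply j
      rw [e]
      exact this
    · intro h i hi
      have := h (π i) ⟨i, hi, rfl⟩
      rw [π.symm_apply_apply] at this
      exact this
  rw [e1, Measure.infinitePi_pi _ fun i _ => ht _, Finset.prod_map]
  apply Finset.prod_congr rfl
  intro i _
  have e : π.symm (π.toEmbedding i) = i := π.symm_apply_apply i
  rw [e]

lemma rho_small {A : Set (ℕ → ℝ)} (hA : μ ((fun x : ℕ → ℝ => x 0) '' A) = 0) : rho μ A = 0 := by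
  have h := (measurePreserving_eval_infinitePi (fun _ : ℕ => μ) 0).quasiMeasurePreserving.preimage_null hA
  refine measure_mono_null ?_ h
  intro x hx
  exact ⟨x, hx, rfl⟩

end

end Pool.Agent.R361.AB
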