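import Mathlib

/-! Rank functions on groups (MP_c06a36_lc). -/

universe u

open Cardinal Ordinal

namespace Pool.Agent.R361.AB

variable {E : Type u} [Group E]

lemma mk_closure_le (s : Set E) : #(Subgroup.closure s) ≤ max #s ℵ₀ := by
  rcases s.eq_empty_or_nonempty with rfl | hs
  · rw [Subgroup.closure_empty]
    have : #((⊥ : Subgroup E) : Type u) = 1 := Cardinal.mk_eq_one _
    rw [this]
    exact one_le_aleph0.trans (le_max_right _ _)
  · have : Nonempty s := hs.to_subtype
    rw [FreeGroup.closure_eq_range, ← mk_freeGroup]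
    exact Cardinal.mk_le_of_surjective
      (f := (FreeGroup.lift ((↑) : s → E)).rangeRestrict)
      (MonoidHom.rangeRestrict_surjective _)

/-- An ultrametric rank function on the subgroup `H`. -/
structure IsRank (H : Subgroup E) (rk : E → Ordinal.{u}) : Prop where
  one : rk 1 = 0
  eq_one : ∀ x ∈ H, rk x = 0 → x = 1
  mul : ∀ x ∈ H, ∀ y ∈ H, rk (x * y) ≤ max (rk x) (rk y)
  inv : ∀ x ∈ H, rk x⁻¹ = rk x

lemma rank_of_family (H : Subgroup E) (G : Ordinal.{u} → Set E) (hmono : Monotone G)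
    (h0 : G 0 = ∅) (hH : ∀ x ∈ H, ∃ α, x ∈ Subgroup.closure (G α)) :
    ∃ rk : E → Ordinal.{u}, IsRank H rk ∧
      ∀ x ∈ H, ∀ α, rk x ≤ α ↔ x ∈ Subgroup.closure (G α) := by
  have cmono : ∀ {α β : Ordinal.{u}}, α ≤ β →
      Subgroup.closure (G α) ≤ Subgroup.closure (G β) :=
    fun h => Subgroup.closure_mono (hmono h)
  set rk : E → Ordinal.{u} := fun x => sInf {α | x ∈ Subgroup.closure (G α)} with hrk
  have key : ∀ x ∈ H, ∀ α, rk x ≤ α ↔ x ∈ Subgroup.closure (G α) := by
    intro x hx α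
    constructor
    · intro h
      exact cmono h (csInf_mem (hH x hx))
    · intro h
      exact csInf_le' h
  refine ⟨rk, ⟨?_, ?_, ?_, ?_⟩, key⟩
  · have := (key 1 H.one_mem 0).2 (Subgroup.one_mem _)
    exact le_antisymm this (zero_le)
  · intro x hx h
    have := (key x hx 0).1 h.le
    rw [h0, Subgroup.closure_empty] at this
    exact Subgroup.mem_bot.1 this
  · intro x hx y hy
    rw [key _ (H.mul_mem hx hy)]
    exact Subgroup.mul_mem _ ((key x hx _).1 (le_max_left _ _)) ((key y hy _).1 (le_max_right _ _))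
  · intro x hx
    apply le_antisymm
    · rw [key _ (H.inv_mem hx)]
      exact Subgroup.inv_mem _ ((key x hx _).1 le_rfl)
    · rw [key _ hx]
      have := Subgroup.inv_mem _ ((key _ (H.inv_mem hx) _).1 le_rfl)
      rwa [inv_inv] at this

lemma exists_rank (H : Subgroup E) (hH : ℵ₀ < #H) :
    ∃ rk : E → Ordinal.{u}, IsRank H rk ∧
      ∀ x ∈ H, ∃ K : Subgroup E, (∀ y, y ∈ K ↔ y ∈ H ∧ rk y ≤ rk x) ∧ #K < #H := by
  obtain ⟨e⟩ : Nonempty (H ≃ (#H).ord.ToType) := Cardinal.eq.1 (by simp)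
  set f : E → Ordinal.{u} := fun x => by
    classical exact if hx : x ∈ H then (ToType.toOrd (e ⟨x, hx⟩)).1 else 0 with hf
  have hfx : ∀ x (hx : x ∈ H), f x = (ToType.toOrd (e ⟨x, hx⟩)).1 := by
    intro x hx
    simp only [hf]
    rw [dif_pos hx]
  have hflt : ∀ x (hx : x ∈ H), f x < (#H).ord := by
    intro x hx
    rw [hfx x hx]
    exact (ToType.toOrd (e ⟨x, hx⟩)).2
  have hinj : ∀ x (hx : x ∈ H) y (hy : y ∈ H), f x = f y → x = y := by
    intro x hx y hy h
    rw [hfx x hx, hfx y hy] at h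
    have h2 := ToType.mk.symm.injective (Subtype.ext h)
    exact congrArg Subtype.val (e.injective h2)
  set G : Ordinal.{u} → Set E := fun α => {x | x ∈ H ∧ f x < α} with hG
  have hGH : ∀ α, Subgroup.closure (G α) ≤ H := fun α =>
    (Subgroup.closure_le H).2 (fun x hx => hx.1)
  obtain ⟨rk, hrk, key⟩ := rank_of_family H G (fun α β h x hx => ⟨hx.1, hx.2.trans_le h⟩)
    (by ext x; simp [hG]) (fun x hx => ⟨f x + 1, Subgroup.subset_closure ⟨hx, lt_add_one _⟩⟩)
  refine ⟨rk, hrk, fun x hx => ⟨Subgroup.closure (G (rk x)), ?_, ?_⟩⟩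
  · intro y
    constructor
    · intro hy
      have := hGH _ hy
      exact ⟨this, (key y this _).2 hy⟩
    · rintro ⟨hy, h⟩
      exact (key y hy _).1 h
  · have h1 : rk x ≤ f x + 1 := (key x hx _).2 (Subgroup.subset_closure ⟨hx, lt_add_one _⟩)
    have hlim : Order.IsSuccLimit (#H).ord := Cardinal.isSuccLimit_ord hH.le
    have h2 : rk x < (#H).ord := h1.trans_lt (by
      have := hlim.succ_lt (hflt x hx)
      rwa [Order.succ_eq_add_one] at this)
    have h3 : #(G (rk x)) ≤ (rk x).card := by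
      have : #(G (rk x)) ≤ #((rk x).ToType) := by
        refine Cardinal.mk_le_of_injective
          (f := fun y : G (rk x) => ToType.mk ⟨f y.1, y.2.2⟩) ?_
        intro y z hyz
        have := ToType.mk.injective hyz
        have h4 : f y.1 = f z.1 := congrArg Subtype.val this
        exact Subtype.ext (hinj _ y.2.1 _ z.2.1 h4)
      simpa using this
    have h4 : #(G (rk x)) < #H := h3.trans_lt (lt_ord.1 h2)
    exact (mk_closure_le _).trans_lt (max_lt h4 hH)

end Pool.Agent.R361.AB
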