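import Mathlib
import Pool.Agent.R361.AB.Rank

/-! The multiplication table of a group of cardinality at most the continuum belongs to the
σ-algebra generated by all boxes (MP_c06a36_lc). -/

universe u

open Cardinal Ordinal MeasureTheory

namespace Pool.Agent.R361.AB

/-- States: a list (coding a subgroup) and an element; all subsets are measurable. -/
structure St (E : Type u) where
  l : List E
  x : E

instance (E : Type u) : MeasurableSpace (St E) := ⊤

instance (E : Type u) : DiscreteMeasurableSpace (St E) := ⟨fun _ => trivial⟩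

lemma exists_code {Y : Type u} (h : #Y ≤ 𝔠) : ∃ φ : Y → ℝ, Function.Injective φ := by
  have h2 : Cardinal.lift.{0} #Y ≤ Cardinal.lift.{u} #ℝ := by
    rw [Cardinal.mk_real, Cardinal.lift_continuum, Cardinal.lift_uzero]
    exact h
  obtain ⟨φ⟩ := Cardinal.lift_mk_le'.1 h2
  exact ⟨φ, φ.injective⟩

lemma meas_eq {Ω : Type*} [MeasurableSpace Ω] {Y : Type u} (hY : #Y ≤ 𝔠) {S T : Type*}
    [MeasurableSpace S] [DiscreteMeasurableSpace S] [MeasurableSpace T]
    [DiscreteMeasurableSpace T] (F : S → Y) (G : T → Y) {p : Ω → S} {q : Ω → T}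
    (hp : Measurable p) (hq : Measurable q) :
    MeasurableSet {z | F (p z) = G (q z)} := by
  obtain ⟨φ, hφ⟩ := exists_code hY
  have h1 : {z | F (p z) = G (q z)} = {z | (φ ∘ F) (p z) = (φ ∘ G) (q z)} := by
    ext z
    exact ⟨fun h => congrArg φ h, fun h => hφ h⟩
  rw [h1]
  have m1 : Measurable (φ ∘ F) := Measurable.of_discrete
  have m2 : Measurable (φ ∘ G) := Measurable.of_discrete
  exact measurableSet_eq_fun (m1.comp hp) (m2.comp hq)

section Der

variable {E : Type u} [Group E] (N : Subgroup E → E → Subgroup E) (t : Subgroup E → E → E)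
  (e : Subgroup E → ℕ → E)

/-- The subgroup coded by a list. -/
def sg : List E → Subgroup E
  | [] => ⊤
  | x :: l => N (sg l) x

/-- Derivations of length `n` of the relation `a b c = 1`. -/
def Der : ℕ → Subgroup E → E → E → E → Prop
  | 0, H, a, b, c => a * b * c = 1 ∧ (c = 1 ∨ ∃ j k, b = e H j ∧ c = e H k)
  | n + 1, H, a, b, c => Der n H b c a ∨
      (N H a = N H b ∧ N H a = N H c ∧ Der n (N H a) a b c) ∨
      (t H a⁻¹ = t H b ∧ Der n H ((t H a⁻¹)⁻¹ * a⁻¹)⁻¹ ((t H b)⁻¹ * b) c)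

lemma Der_sound : ∀ (n : ℕ) (H : Subgroup E) (a b c : E), Der N t e n H a b c → a * b * c = 1 := by
  intro n
  induction n with
  | zero => intro H a b c h; exact h.1
  | succ n ih =>
    intro H a b c h
    rcases h with h | ⟨-, -, h⟩ | ⟨h1, h⟩
    · have := ih _ _ _ _ h
      have e1 : a * b * c = a * (b * c * a) * a⁻¹ := by group
      rw [e1, this]; group
    · exact ih _ _ _ _ h
    · have := ih _ _ _ _ h
      rw [h1] at this
      rw [← this]; group

/-- The measurable sets of derivable lines. -/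
def MM (n : ℕ) : Set (St E × St E × St E) :=
  {p | sg N p.1.l = sg N p.2.1.l ∧ sg N p.1.l = sg N p.2.2.l ∧
    Der N t e n (sg N p.1.l) p.1.x p.2.1.x p.2.2.x}

lemma MM_meas (hE : #E ≤ 𝔠) (n : ℕ) : MeasurableSet (MM N t e n) := by
  have hL : #(List E) ≤ 𝔠 :=
    (Cardinal.mk_list_le_max E).trans (max_le Cardinal.aleph0_le_continuum hE)
  have hS : #(Set.range (sg N)) ≤ 𝔠 := Cardinal.mk_range_le.trans hL
  have p1 : Measurable (fun p : St E × St E × St E => p.1) := measurable_fst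
  have p2 : Measurable (fun p : St E × St E × St E => p.2.1) := measurable_fst.comp measurable_snd
  have p3 : Measurable (fun p : St E × St E × St E => p.2.2) := measurable_snd.comp measurable_snd
  set F : St E → Set.range (sg N) := fun s => ⟨sg N s.l, s.l, rfl⟩ with hF
  have hseq : MeasurableSet {p : St E × St E × St E | sg N p.1.l = sg N p.2.1.l ∧
      sg N p.1.l = sg N p.2.2.l} := by
    have e1 := meas_eq hS F F p1 p2
    have e2 := meas_eq hS F F p1 p3
    have e3 : {p : St E × St E × St E | sg N p.1.l = sg N p.2.1.l ∧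
      sg N p.1.l = sg N p.2.2.l} = {p | F p.1 = F p.2.1} ∩ {p | F p.1 = F p.2.2} := by
      ext p
      exact ⟨fun h => ⟨Subtype.ext h.1, Subtype.ext h.2⟩,
        fun h => ⟨congrArg Subtype.val h.1, congrArg Subtype.val h.2⟩⟩
    rw [e3]
    exact e1.inter e2
  induction n with
  | zero =>
    have e1 : MM N t e 0 = {p : St E × St E × St E | sg N p.1.l = sg N p.2.1.l ∧
      sg N p.1.l = sg N p.2.2.l} ∩
        (({p | p.1.x⁻¹ = p.2.1.x} ∩ {p | p.2.2.x = 1}) ∪
        ⋃ j : ℕ, ⋃ k : ℕ, ({p | e (sg N p.1.l) j = p.2.1.x} ∩ {p | e (sg N p.1.l) k = p.2.2.x} ∩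
          {p | p.1.x * e (sg N p.1.l) j * e (sg N p.1.l) k = 1})) := by
      ext p
      simp only [MM, Der, Set.mem_inter_iff, Set.mem_union, Set.mem_iUnion, Set.mem_ofPred_eq]
      constructor
      · rintro ⟨h1, h2, h3, h4⟩
        refine ⟨⟨h1, h2⟩, ?_⟩
        rcases h4 with h4 | ⟨j, k, hj, hk⟩
        · left
          rw [h4, mul_one] at h3
          exact ⟨inv_eq_of_mul_eq_one_right h3, h4⟩
        · right
          refine ⟨j, k, ⟨hj.symm, hk.symm⟩, ?_⟩
          rw [← hj, ← hk]; exact h3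
      · rintro ⟨⟨h1, h2⟩, h3⟩
        refine ⟨h1, h2, ?_⟩
        rcases h3 with ⟨h3, h4⟩ | ⟨j, k, ⟨hj, hk⟩, h3⟩
        · exact ⟨by rw [← h3, h4]; group, Or.inl h4⟩
        · exact ⟨by rw [← hj, ← hk]; exact h3, Or.inr ⟨j, k, hj.symm, hk.symm⟩⟩
    rw [e1]
    refine hseq.inter (MeasurableSet.union ?_ ?_)
    · refine (meas_eq hE (fun s : St E => s.x⁻¹) (fun s : St E => s.x) p1 p2).inter ?_
      exact p3 (MeasurableSet.of_discrete (s := {s : St E | s.x = 1}))
    · refine MeasurableSet.iUnion fun j => MeasurableSet.iUnion fun k => ?_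
      refine ((meas_eq hE (fun s : St E => e (sg N s.l) j) (fun s : St E => s.x) p1 p2).inter
        (meas_eq hE (fun s : St E => e (sg N s.l) k) (fun s : St E => s.x) p1 p3)).inter ?_
      exact p1 (MeasurableSet.of_discrete
        (s := {s : St E | s.x * e (sg N s.l) j * e (sg N s.l) k = 1}))
  | succ n ih =>
    set Nt : St E → St E := fun s => ⟨s.x :: s.l, s.x⟩ with hNt
    set f : St E → St E := fun s => ⟨s.l, ((t (sg N s.l) s.x⁻¹)⁻¹ * s.x⁻¹)⁻¹⟩ with hf
    set g : St E → St E := fun s => ⟨s.l, (t (sg N s.l) s.x)⁻¹ * s.x⟩ with hg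
    have e1 : MM N t e (n + 1) = {p : St E × St E × St E | sg N p.1.l = sg N p.2.1.l ∧
      sg N p.1.l = sg N p.2.2.l} ∩
        (((fun p : St E × St E × St E => (p.2.1, p.2.2, p.1)) ⁻¹' (MM N t e n)) ∪
        (((fun p : St E × St E × St E => (Nt p.1, Nt p.2.1, Nt p.2.2)) ⁻¹' (MM N t e n)) ∪
        ({p | t (sg N p.1.l) p.1.x⁻¹ = t (sg N p.2.1.l) p.2.1.x} ∩
          ((fun p : St E × St E × St E => (f p.1, g p.2.1, p.2.2)) ⁻¹' (MM N t e n))))) := by
      ext ⟨⟨l1, a⟩, ⟨l2, b⟩, ⟨l3, c⟩⟩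
      simp only [MM, Der, Set.mem_inter_iff, Set.mem_union, Set.mem_ofPred_eq,
        Set.mem_preimage, hNt, hf, hg, sg]
      constructor
      · rintro ⟨h1, h2, h3⟩
        refine ⟨⟨h1, h2⟩, ?_⟩
        rcases h3 with h3 | ⟨h3, h4, h5⟩ | ⟨h3, h4⟩
        · left
          exact ⟨h1.symm.trans h2, h1.symm, by rw [← h1]; exact h3⟩
        · right; left
          exact ⟨by rw [← h1]; exact h3, by rw [← h2]; exact h4, h5⟩
        · right; right
          refine ⟨by rw [← h1]; exact h3, h1, h2, ?_⟩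
          rw [← h1]; exact h4
      · rintro ⟨⟨h1, h2⟩, h3⟩
        refine ⟨h1, h2, ?_⟩
        rcases h3 with ⟨-, -, h3⟩ | ⟨h3, h4, h5⟩ | ⟨h3, -, -, h4⟩
        · left
          rw [h1]; exact h3
        · right; left
          exact ⟨by rw [← h1] at h3; exact h3, by rw [← h2] at h4; exact h4, h5⟩
        · right; right
          rw [← h1] at h3 h4
          exact ⟨h3, h4⟩
    rw [e1]
    have mN : Measurable Nt := Measurable.of_discrete
    have mf : Measurable f := Measurable.of_discrete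
    have mg : Measurable g := Measurable.of_discrete
    refine hseq.inter (MeasurableSet.union ?_ (MeasurableSet.union ?_ (MeasurableSet.inter ?_ ?_)))
    · exact (p2.prodMk (p3.prodMk p1)) ih
    · exact ((mN.comp p1).prodMk ((mN.comp p2).prodMk (mN.comp p3))) ih
    · exact meas_eq hE (fun s : St E => t (sg N s.l) s.x⁻¹)
        (fun s : St E => t (sg N s.l) s.x) p1 p2
    · exact ((mf.comp p1).prodMk ((mg.comp p2).prodMk p3)) ih

end Der

section complete

variable {E : Type u} [Group E]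

/-- The data used in the derivations. -/
structure Good (N : Subgroup E → E → Subgroup E) (t : Subgroup E → E → E)
    (e : Subgroup E → ℕ → E) : Prop where
  cnt : ∀ H : Subgroup E, #H ≤ ℵ₀ → ∀ x ∈ H, ∃ j, x = e H j
  unc : ∀ H : Subgroup E, ℵ₀ < #H → ∃ rk : E → Ordinal.{u}, IsRank H rk ∧
    (∀ x ∈ H, ∀ y, y ∈ N H x ↔ y ∈ H ∧ rk y ≤ rk x) ∧ (∀ x ∈ H, #(N H x) < #H) ∧
    (∀ x ∈ H, x ≠ 1 → t H x ∈ H ∧ rk (t H x) = rk x ∧ rk (x⁻¹ * t H x) < rk x) ∧
    (∀ x ∈ H, ∀ y ∈ H, rk x = rk y → rk (x⁻¹ * y) < rk x → t H x = t H y)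

lemma rk_lt_mul {H : Subgroup E} {rk : E → Ordinal.{u}} (h : IsRank H rk) {x y : E} (hx : x ∈ H)
    (hy : y ∈ H) {ρ : Ordinal.{u}} (h1 : rk x < ρ) (h2 : rk y < ρ) : rk (x * y) < ρ :=
  (h.mul x hx y hy).trans_lt (max_lt h1 h2)

/-- A choice from a set. -/
noncomputable def pick (S : Set E) : E := by
  classical exact if h : S.Nonempty then h.some else 1

lemma pick_mem {S : Set E} (h : S.Nonempty) : pick S ∈ S := by
  unfold pick; rw [dif_pos h]; exact h.some_mem

lemma exists_good : ∃ (N : Subgroup E → E → Subgroup E) (t : Subgroup E → E → E)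
    (e : Subgroup E → ℕ → E), Good N t e := by
  classical
  have hcnt : ∀ H : Subgroup E, ∃ e : ℕ → E, #H ≤ ℵ₀ → ∀ x ∈ H, ∃ j, x = e j := by
    intro H
    by_cases hH : #H ≤ ℵ₀
    · have : Countable H := Cardinal.mk_le_aleph0_iff.1 hH
      obtain ⟨f, hf⟩ := exists_surjective_nat H
      refine ⟨fun j => (f j : E), fun _ x hx => ?_⟩
      obtain ⟨j, hj⟩ := hf ⟨x, hx⟩
      exact ⟨j, (congrArg Subtype.val hj).symm⟩
    · exact ⟨fun _ => 1, fun h => absurd h hH⟩
  choose e he using hcnt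
  have hrk : ∀ H : Subgroup E, ∃ rk : E → Ordinal.{u}, ℵ₀ < #H → IsRank H rk ∧
      ∀ x ∈ H, ∃ K : Subgroup E, (∀ y, y ∈ K ↔ y ∈ H ∧ rk y ≤ rk x) ∧ #K < #H := by
    intro H
    by_cases hH : ℵ₀ < #H
    · obtain ⟨rk, h⟩ := exists_rank H hH
      exact ⟨rk, fun _ => h⟩
    · exact ⟨fun _ => 0, fun h => absurd h hH⟩
  choose rk hrk using hrk
  have hN : ∀ (H : Subgroup E) (x : E), ∃ K : Subgroup E, ℵ₀ < #H → x ∈ H →
      (∀ y, y ∈ K ↔ y ∈ H ∧ rk H y ≤ rk H x) ∧ #K < #H := by
    intro H x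
    by_cases hH : ℵ₀ < #H ∧ x ∈ H
    · obtain ⟨K, hK⟩ := (hrk H hH.1).2 x hH.2
      exact ⟨K, fun _ _ => hK⟩
    · exact ⟨⊤, fun h1 h2 => absurd ⟨h1, h2⟩ hH⟩
  choose N hN using hN
  refine ⟨N, fun H x => pick {y | y ∈ H ∧ rk H y = rk H x ∧ rk H (x⁻¹ * y) < rk H x}, e, he, ?_⟩
  intro H hH
  refine ⟨rk H, (hrk H hH).1, fun x hx => (hN H x hH hx).1, fun x hx => (hN H x hH hx).2, ?_, ?_⟩
  · intro x hx hx1
    have hr := (hrk H hH).1
    have hpos : 0 < rk H x := by
      rw [pos_iff_ne_zero]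
      intro h; exact hx1 (hr.eq_one x hx h)
    have hne : ({y | y ∈ H ∧ rk H y = rk H x ∧ rk H (x⁻¹ * y) < rk H x} : Set E).Nonempty :=
      ⟨x, hx, rfl, by rw [inv_mul_cancel, hr.one]; exact hpos⟩
    exact pick_mem hne
  · intro x hx y hy hxy h
    have hr := (hrk H hH).1
    have hset : ({z | z ∈ H ∧ rk H z = rk H x ∧ rk H (x⁻¹ * z) < rk H x} : Set E) =
        {z | z ∈ H ∧ rk H z = rk H y ∧ rk H (y⁻¹ * z) < rk H y} := ?_
    · exact congrArg pick hset
    ext z
    simp only [Set.mem_ofPred_eq]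
    constructor
    · rintro ⟨hz, h1, h2⟩
      refine ⟨hz, h1.trans hxy, ?_⟩
      have e1 : y⁻¹ * z = (x⁻¹ * y)⁻¹ * (x⁻¹ * z) := by group
      rw [e1, ← hxy]
      have hm : x⁻¹ * y ∈ H := H.mul_mem (H.inv_mem hx) hy
      refine rk_lt_mul hr (H.inv_mem hm) (H.mul_mem (H.inv_mem hx) hz) ?_ h2
      rw [hr.inv _ hm]; exact h
    · rintro ⟨hz, h1, h2⟩
      refine ⟨hz, h1.trans hxy.symm, ?_⟩
      have e1 : x⁻¹ * z = (x⁻¹ * y) * (y⁻¹ * z) := by group
      rw [e1]
      rw [← hxy] at h2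
      exact rk_lt_mul hr (H.mul_mem (H.inv_mem hx) hy) (H.mul_mem (H.inv_mem hy) hz) h h2

lemma complete {N : Subgroup E → E → Subgroup E} {t : Subgroup E → E → E}
    {e : Subgroup E → ℕ → E} (hG : Good N t e) : ∀ (κ : Cardinal.{u}) (H : Subgroup E), #H = κ →
    ∀ a ∈ H, ∀ b ∈ H, ∀ c ∈ H, a * b * c = 1 → ∃ n, Der N t e n H a b c := by
  intro κ
  induction κ using WellFoundedLT.induction with
  | ind κ ihκ =>
  intro H hHκ
  by_cases hH : #H ≤ ℵ₀
  · intro a _ b hb c hc h
    obtain ⟨j, hj⟩ := hG.cnt H hH b hb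
    obtain ⟨k, hk⟩ := hG.cnt H hH c hc
    exact ⟨0, h, Or.inr ⟨j, k, hj, hk⟩⟩
  · rw [not_le] at hH
    obtain ⟨rk, hr, hN1, hN2, ht1, ht2⟩ := hG.unc H hH
    have key : ∀ ρ : Ordinal.{u}, ∀ a ∈ H, ∀ b ∈ H, ∀ c ∈ H, a * b * c = 1 →
        rk a ≤ ρ → rk b ≤ ρ → rk c ≤ ρ → ∃ n, Der N t e n H a b c := by
      intro ρ
      induction ρ using WellFoundedLT.induction with
      | ind ρ ihρ =>
      have hlow : ∀ a ∈ H, ∀ b ∈ H, ∀ c ∈ H, a * b * c = 1 →
          rk a < ρ → rk b < ρ → rk c < ρ → ∃ n, Der N t e n H a b c := by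
        intro a ha b hb c hc h h1 h2 h3
        exact ihρ (max (rk a) (max (rk b) (rk c))) (max_lt h1 (max_lt h2 h3)) a ha b hb c hc h
          (le_max_left _ _) ((le_max_left _ _).trans (le_max_right _ _))
          ((le_max_right _ _).trans (le_max_right _ _))
      have red : ∀ a ∈ H, ∀ b ∈ H, ∀ c ∈ H, a * b * c = 1 →
          rk a = ρ → rk b = ρ → rk c < ρ → ∃ n, Der N t e n H a b c := by
        intro a ha b hb c hc h h1 h2 h3
        have hab : a * b = c⁻¹ := eq_inv_of_mul_eq_one_left h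
        have hai := H.inv_mem ha
        have hbne : b ≠ 1 := by
          rintro rfl
          rw [hr.one] at h2
          rw [← h2] at h3
          exact absurd h3 (not_lt.2 zero_le)
        have hrai : rk a⁻¹ = ρ := by rw [hr.inv _ ha]; exact h1
        have haine : a⁻¹ ≠ 1 := by
          intro h0
          rw [h0, hr.one] at hrai
          rw [← hrai] at h3
          exact absurd h3 (not_lt.2 zero_le)
        have hteq : t H a⁻¹ = t H b := by
          apply ht2 _ hai _ hb (hrai.trans h2.symm)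
          rw [inv_inv, hab, hr.inv _ hc, hrai]
          exact h3
        obtain ⟨t1, t2, t3⟩ := ht1 _ hai haine
        obtain ⟨s1, s2, s3⟩ := ht1 _ hb hbne
        rw [inv_inv] at t3
        have ha' : ((t H a⁻¹)⁻¹ * a⁻¹)⁻¹ = a * t H a⁻¹ := by group
        have hb' : (t H b)⁻¹ * b = (b⁻¹ * t H b)⁻¹ := by group
        obtain ⟨n, hn⟩ := hlow (((t H a⁻¹)⁻¹ * a⁻¹)⁻¹) (by rw [ha']; exact H.mul_mem ha t1)
          ((t H b)⁻¹ * b) (H.mul_mem (H.inv_mem s1) hb) c hc
          (by rw [hteq, ← h]; group)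
          (by rw [ha']; exact t3.trans_le hrai.le)
          (by rw [hb', hr.inv _ (H.mul_mem (H.inv_mem hb) s1)]; exact s3.trans_le h2.le) h3
        exact ⟨n + 1, Or.inr (Or.inr ⟨hteq, hn⟩)⟩
      intro a ha b hb c hc h h1 h2 h3
      have hbca : b * c * a = 1 := by
        have : b * c * a = a⁻¹ * (a * b * c) * a := by group
        rw [this, h]; group
      have hcab : c * a * b = 1 := by
        have : c * a * b = c * (a * b * c) * c⁻¹ := by group
        rw [this, h]; group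
      have ea : a = (b * c)⁻¹ := eq_inv_of_mul_eq_one_left (by rw [← mul_assoc]; exact h)
      have eb : b = (c * a)⁻¹ := eq_inv_of_mul_eq_one_left (by rw [← mul_assoc]; exact hbca)
      have ec : c = (a * b)⁻¹ := eq_inv_of_mul_eq_one_left (by rw [← mul_assoc]; exact hcab)
      have la : rk a ≤ max (rk b) (rk c) := by
        conv_lhs => rw [ea]
        rw [hr.inv _ (H.mul_mem hb hc)]; exact hr.mul b hb c hc
      have lb : rk b ≤ max (rk c) (rk a) := by
        conv_lhs => rw [eb]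
        rw [hr.inv _ (H.mul_mem hc ha)]; exact hr.mul c hc a ha
      have lc : rk c ≤ max (rk a) (rk b) := by
        conv_lhs => rw [ec]
        rw [hr.inv _ (H.mul_mem ha hb)]; exact hr.mul a ha b hb
      rcases h1.lt_or_eq with a1 | a1 <;> rcases h2.lt_or_eq with b1 | b1 <;>
        rcases h3.lt_or_eq with c1 | c1
      · exact hlow a ha b hb c hc h a1 b1 c1
      · exact absurd lc (not_le.2 (by rw [c1]; exact max_lt a1 b1))
      · exact absurd lb (not_le.2 (by rw [b1]; exact max_lt c1 a1))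
      · obtain ⟨n, hn⟩ := red b hb c hc a ha hbca b1 c1 a1
        exact ⟨n + 1, Or.inl hn⟩
      · exact absurd la (not_le.2 (by rw [a1]; exact max_lt b1 c1))
      · obtain ⟨n, hn⟩ := red c hc a ha b hb hcab c1 a1 b1
        exact ⟨n + 2, Or.inl (Or.inl hn)⟩
      · exact red a ha b hb c hc h a1 b1 c1
      · have e1 : N H a = N H b := by
          ext y; rw [hN1 a ha, hN1 b hb, a1, b1]
        have e2 : N H a = N H c := by
          ext y; rw [hN1 a ha, hN1 c hc, a1, c1]
        obtain ⟨n, hn⟩ := ihκ (#(N H a)) (by rw [← hHκ]; exact hN2 a ha) (N H a) rfl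
          a ((hN1 a ha a).2 ⟨ha, le_rfl⟩) b ((hN1 a ha b).2 ⟨hb, by rw [a1, b1]⟩)
          c ((hN1 a ha c).2 ⟨hc, by rw [a1, c1]⟩) h
        exact ⟨n + 1, Or.inr (Or.inl ⟨e1, e2, hn⟩)⟩
    intro a ha b hb c hc h
    exact key (max (rk a) (max (rk b) (rk c))) a ha b hb c hc h
      (le_max_left _ _) ((le_max_left _ _).trans (le_max_right _ _))
      ((le_max_right _ _).trans (le_max_right _ _))

end complete

/-- T1: the multiplication table is in the σ-algebra generated by all boxes. -/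
theorem table_measurable {E : Type u} [Group E] (hE : #E ≤ 𝔠) :
    MeasurableSet[@Prod.instMeasurableSpace E (E × E) ⊤ (@Prod.instMeasurableSpace E E ⊤ ⊤)]
      {p : E × E × E | p.1 * p.2.1 = p.2.2} := by
  obtain ⟨N, t, e, hG⟩ := exists_good (E := E)
  let _ : MeasurableSpace E := ⊤
  have : DiscreteMeasurableSpace E := ⟨fun _ => trivial⟩
  have hm : MeasurableSet (⋃ n, MM N t e n) := MeasurableSet.iUnion fun n => MM_meas N t e hE n
  have m1 : Measurable (fun x : E => (⟨[], x⟩ : St E)) := Measurable.of_discrete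
  have m2 : Measurable (fun x : E => (⟨[], x⁻¹⟩ : St E)) := Measurable.of_discrete
  have p1 : Measurable (fun p : E × E × E => p.1) := measurable_fst
  have p2 : Measurable (fun p : E × E × E => p.2.1) := measurable_fst.comp measurable_snd
  have p3 : Measurable (fun p : E × E × E => p.2.2) := measurable_snd.comp measurable_snd
  have h := ((m1.comp p1).prodMk ((m1.comp p2).prodMk (m2.comp p3))) hm
  have e1 : {p : E × E × E | p.1 * p.2.1 = p.2.2} =
      (fun p : E × E × E => ((⟨[], p.1⟩ : St E), (⟨[], p.2.1⟩ : St E), (⟨[], p.2.2⁻¹⟩ : St E))) ⁻¹'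
        (⋃ n, MM N t e n) := by
    ext ⟨a, b, c⟩
    simp only [Set.mem_ofPred_eq, Set.mem_preimage, Set.mem_iUnion, MM, sg]
    constructor
    · intro h
      obtain ⟨n, hn⟩ := complete hG _ ⊤ rfl a trivial b trivial c⁻¹ trivial (by rw [h]; group)
      exact ⟨n, trivial, trivial, hn⟩
    · rintro ⟨n, -, -, hn⟩
      have := Der_sound N t e n ⊤ a b c⁻¹ hn
      exact mul_inv_eq_one.1 this
  rw [e1]
  exact h

end Pool.Agent.R361.AB
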