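import Mathlib
import Pool.Agent.R361.AB.T1

/-! Boxes whose sides are Borel on a small set (MP_c06a36_lc). -/

universe u

open Cardinal Ordinal MeasureTheory

namespace Pool.Agent.R361.AB

/-- Copy of a type with all subsets measurable. -/
structure Ds (E : Type u) where
  x : E

instance (E : Type u) : MeasurableSpace (Ds E) := ⊤

instance (E : Type u) : DiscreteMeasurableSpace (Ds E) := ⟨fun _ => trivial⟩

variable {E : Type u} [Group E]

lemma table_Ds (hE : #E ≤ 𝔠) : MeasurableSet {p : Ds E × Ds E × Ds E | p.1.x * p.2.1.x = p.2.2.x} := by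
  obtain ⟨N, t, e, hG⟩ := exists_good (E := E)
  have hm : MeasurableSet (⋃ n, MM N t e n) := MeasurableSet.iUnion fun n => MM_meas N t e hE n
  have m1 : Measurable (fun x : Ds E => (⟨[], x.x⟩ : St E)) := Measurable.of_discrete
  have m2 : Measurable (fun x : Ds E => (⟨[], x.x⁻¹⟩ : St E)) := Measurable.of_discrete
  have p1 : Measurable (fun p : Ds E × Ds E × Ds E => p.1) := measurable_fst
  have p2 : Measurable (fun p : Ds E × Ds E × Ds E => p.2.1) := measurable_fst.comp measurable_snd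
  have p3 : Measurable (fun p : Ds E × Ds E × Ds E => p.2.2) := measurable_snd.comp measurable_snd
  have h := ((m1.comp p1).prodMk ((m1.comp p2).prodMk (m2.comp p3))) hm
  have e1 : {p : Ds E × Ds E × Ds E | p.1.x * p.2.1.x = p.2.2.x} =
      (fun p : Ds E × Ds E × Ds E => ((⟨[], p.1.x⟩ : St E), (⟨[], p.2.1.x⟩ : St E),
        (⟨[], p.2.2.x⁻¹⟩ : St E))) ⁻¹' (⋃ n, MM N t e n) := by
    ext ⟨⟨a⟩, ⟨b⟩, ⟨c⟩⟩
    simp only [Set.mem_ofPred_eq, Set.mem_preimage, Set.mem_iUnion, MM, sg]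
    constructor
    · intro h
      obtain ⟨n, hn⟩ := complete hG _ ⊤ rfl a trivial b trivial c⁻¹ trivial (by rw [h]; group)
      exact ⟨n, trivial, trivial, hn⟩
    · rintro ⟨n, -, -, hn⟩
      have := Der_sound N t e n ⊤ a b c⁻¹ hn
      exact mul_inv_eq_one.1 this
  rw [e1]
  exact h

lemma exists_t {rk : E → Ordinal.{u}} (hr : IsRank (⊤ : Subgroup E) rk) : ∃ tt : E → E,
    (∀ x, x ≠ 1 → rk (tt x) = rk x ∧ rk (x⁻¹ * tt x) < rk x) ∧
    (∀ x y, rk x = rk y → rk (x⁻¹ * y) < rk x → tt x = tt y) := by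
  refine ⟨fun x => pick {y | rk y = rk x ∧ rk (x⁻¹ * y) < rk x}, ?_, ?_⟩
  · intro x hx1
    have hpos : 0 < rk x := by
      rw [pos_iff_ne_zero]
      intro h; exact hx1 (hr.eq_one x trivial h)
    have hne : ({y | rk y = rk x ∧ rk (x⁻¹ * y) < rk x} : Set E).Nonempty :=
      ⟨x, rfl, by rw [inv_mul_cancel, hr.one]; exact hpos⟩
    exact pick_mem hne
  · intro x y hxy h
    have hset : ({z | rk z = rk x ∧ rk (x⁻¹ * z) < rk x} : Set E) =
        {z | rk z = rk y ∧ rk (y⁻¹ * z) < rk y} := ?_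
    · exact congrArg pick hset
    ext z
    simp only [Set.mem_ofPred_eq]
    constructor
    · rintro ⟨h1, h2⟩
      refine ⟨h1.trans hxy, ?_⟩
      have e1 : y⁻¹ * z = (x⁻¹ * y)⁻¹ * (x⁻¹ * z) := by group
      rw [e1, ← hxy]
      refine rk_lt_mul hr trivial trivial ?_ h2
      rw [hr.inv _ trivial]; exact h
    · rintro ⟨h1, h2⟩
      refine ⟨h1.trans hxy.symm, ?_⟩
      have e1 : x⁻¹ * z = (x⁻¹ * y) * (y⁻¹ * z) := by group
      rw [e1]
      rw [← hxy] at h2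
      exact rk_lt_mul hr trivial trivial h h2

lemma rk_three {rk : E → Ordinal.{u}} (hr : IsRank (⊤ : Subgroup E) rk) (a b c : E)
    (h : a * b * c = 1) : rk a = rk b ∨ rk a = rk c ∨ (rk b = rk c ∧ rk a < rk b) := by
  have ea : a = (b * c)⁻¹ := eq_inv_of_mul_eq_one_left (by rw [← mul_assoc]; exact h)
  have hbca : b * c * a = 1 := by rw [ea]; group
  have eb : b = (c * a)⁻¹ := eq_inv_of_mul_eq_one_left (by rw [← mul_assoc]; exact hbca)
  have hcab : c * a * b = 1 := by rw [eb]; group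
  have ec : c = (a * b)⁻¹ := eq_inv_of_mul_eq_one_left (by rw [← mul_assoc]; exact hcab)
  have la : rk a ≤ max (rk b) (rk c) := by
    conv_lhs => rw [ea]
    rw [hr.inv _ trivial]; exact hr.mul b trivial c trivial
  have lb : rk b ≤ max (rk c) (rk a) := by
    conv_lhs => rw [eb]
    rw [hr.inv _ trivial]; exact hr.mul c trivial a trivial
  have lc : rk c ≤ max (rk a) (rk b) := by
    conv_lhs => rw [ec]
    rw [hr.inv _ trivial]; exact hr.mul a trivial b trivial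
  rcases lt_trichotomy (rk a) (rk b) with h1 | h1 | h1
  · rcases lt_trichotomy (rk a) (rk c) with h2 | h2 | h2
    · right; right
      refine ⟨?_, h1⟩
      apply le_antisymm
      · rcases le_max_iff.1 lb with h3 | h3
        · exact h3
        · exact absurd h1 (not_lt.2 h3)
      · rcases le_max_iff.1 lc with h3 | h3
        · exact absurd h2 (not_lt.2 h3)
        · exact h3
    · right; left; exact h2
    · exact absurd lb (not_le.2 (max_lt (h2.trans h1) h1))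
  · left; exact h1
  · rcases lt_trichotomy (rk a) (rk c) with h2 | h2 | h2
    · exact absurd lc (not_le.2 (max_lt h2 (h1.trans h2)))
    · right; left; exact h2
    · exact absurd la (not_le.2 (max_lt h1 h2))

/-- The element of `F` with the same rank, if any, else `1`. -/
noncomputable def XF (F : Set E) (rk : E → Ordinal.{u}) (b : E) : E :=
  pick {a | a ∈ F ∧ rk a = rk b}

lemma XF_eq {F : Set E} {rk : E → Ordinal.{u}} (hF : ∀ x ∈ F, ∀ y ∈ F, rk x = rk y → x = y)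
    {a b : E} (ha : a ∈ F) (h : rk a = rk b) : XF F rk b = a := by
  have hne : ({a | a ∈ F ∧ rk a = rk b} : Set E).Nonempty := ⟨a, ha, h⟩
  obtain ⟨h1, h2⟩ := pick_mem hne
  exact hF _ h1 _ ha (h2.trans h.symm)

section TT

variable (F : Set E) (rk : E → Ordinal.{u}) (r : E → ℝ) (tt : E → E)

/-- Derivations of `a b c = 1` with `a` in `F` given by its name. -/
def TN : ℕ → Set (ℝ × Ds E × Ds E)
  | 0 => {p | (XF F rk p.2.1.x ∈ F ∧ p.1 = r (XF F rk p.2.1.x) ∧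
      XF F rk p.2.1.x * p.2.1.x * p.2.2.x = 1) ∨
      (XF F rk p.2.2.x ∈ F ∧ p.1 = r (XF F rk p.2.2.x) ∧
      XF F rk p.2.2.x * p.2.1.x * p.2.2.x = 1)}
  | n + 1 => {p | tt p.2.1.x⁻¹ = tt p.2.2.x ∧
      (p.1, (⟨((tt p.2.1.x⁻¹)⁻¹ * p.2.1.x⁻¹)⁻¹⟩ : Ds E), (⟨(tt p.2.2.x)⁻¹ * p.2.2.x⟩ : Ds E))
        ∈ TN n}

lemma TN_meas (hE : #E ≤ 𝔠) (n : ℕ) : MeasurableSet (TN F rk r tt n) := by
  have p1 : Measurable (fun p : ℝ × Ds E × Ds E => p.1) := measurable_fst
  have p2 : Measurable (fun p : ℝ × Ds E × Ds E => p.2.1) := measurable_fst.comp measurable_snd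
  have p3 : Measurable (fun p : ℝ × Ds E × Ds E => p.2.2) := measurable_snd.comp measurable_snd
  induction n with
  | zero =>
    have m1 : Measurable (fun s : Ds E => r (XF F rk s.x)) := Measurable.of_discrete
    have e1 : TN F rk r tt 0 =
        (({p | XF F rk p.2.1.x ∈ F} ∩ {p | p.1 = r (XF F rk p.2.1.x)}) ∩
          {p : ℝ × Ds E × Ds E | (XF F rk p.2.1.x * p.2.1.x)⁻¹ = p.2.2.x}) ∪
        (({p | XF F rk p.2.2.x ∈ F} ∩ {p | p.1 = r (XF F rk p.2.2.x)}) ∩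
          {p : ℝ × Ds E × Ds E | (XF F rk p.2.2.x)⁻¹ * p.2.2.x⁻¹ = p.2.1.x}) := by
      ext p
      simp only [TN, Set.mem_union, Set.mem_inter_iff, Set.mem_ofPred_eq, and_assoc]
      refine or_congr (and_congr_right fun _ => and_congr_right fun _ => ?_)
        (and_congr_right fun _ => and_congr_right fun _ => ?_)
      · constructor
        · intro h; exact inv_eq_of_mul_eq_one_right h
        · intro h; rw [← h]; group
      · constructor
        · intro h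
          have e2 : XF F rk p.2.2.x * (p.2.1.x * p.2.2.x) = 1 := by rw [← mul_assoc]; exact h
          have e3 := inv_eq_of_mul_eq_one_right e2
          rw [e3]; group
        · intro h; rw [← h]; group
    rw [e1]
    refine MeasurableSet.union ((MeasurableSet.inter ?_ ?_).inter ?_)
      ((MeasurableSet.inter ?_ ?_).inter ?_)
    · exact p2 (MeasurableSet.of_discrete (s := {s : Ds E | XF F rk s.x ∈ F}))
    · exact measurableSet_eq_fun p1 (m1.comp p2)
    · exact meas_eq hE (fun s : Ds E => (XF F rk s.x * s.x)⁻¹) (fun s : Ds E => s.x) p2 p3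
    · exact p3 (MeasurableSet.of_discrete (s := {s : Ds E | XF F rk s.x ∈ F}))
    · exact measurableSet_eq_fun p1 (m1.comp p3)
    · exact meas_eq hE (fun s : Ds E => (XF F rk s.x)⁻¹ * s.x⁻¹) (fun s : Ds E => s.x) p3 p2
  | succ n ih =>
    have m1 : Measurable (fun s : Ds E => (⟨((tt s.x⁻¹)⁻¹ * s.x⁻¹)⁻¹⟩ : Ds E)) :=
      Measurable.of_discrete
    have m2 : Measurable (fun s : Ds E => (⟨(tt s.x)⁻¹ * s.x⟩ : Ds E)) :=
      Measurable.of_discrete
    have h1 := meas_eq hE (fun s : Ds E => tt s.x⁻¹) (fun s : Ds E => tt s.x) p2 p3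
    have h2 := (p1.prodMk ((m1.comp p2).prodMk (m2.comp p3))) ih
    exact h1.inter h2

variable {F rk r tt}

lemma TN_sound (n : ℕ) : ∀ p ∈ TN F rk r tt n, ∃ a ∈ F, r a = p.1 ∧ a * p.2.1.x * p.2.2.x = 1 := by
  induction n with
  | zero =>
    rintro p (⟨h1, h2, h3⟩ | ⟨h1, h2, h3⟩)
    · exact ⟨_, h1, h2.symm, h3⟩
    · exact ⟨_, h1, h2.symm, h3⟩
  | succ n ih =>
    rintro p ⟨h1, h2⟩
    obtain ⟨a, ha, h3, h4⟩ := ih _ h2
    refine ⟨a, ha, h3, ?_⟩
    simp only at h4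
    rw [h1] at h4
    rw [← h4]; group

lemma TN_complete (hr : IsRank (⊤ : Subgroup E) rk)
    (hF : ∀ x ∈ F, ∀ y ∈ F, rk x = rk y → x = y)
    (ht1 : ∀ x, x ≠ 1 → rk (tt x) = rk x ∧ rk (x⁻¹ * tt x) < rk x)
    (ht2 : ∀ x y, rk x = rk y → rk (x⁻¹ * y) < rk x → tt x = tt y)
    {a : E} (ha : a ∈ F) : ∀ ρ : Ordinal.{u}, ∀ b c : E, rk b ≤ ρ → a * b * c = 1 →
      ∃ n, (r a, (⟨b⟩ : Ds E), (⟨c⟩ : Ds E)) ∈ TN F rk r tt n := by
  intro ρ
  induction ρ using WellFoundedLT.induction with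
  | ind ρ ih =>
  intro b c hb h
  rcases rk_three hr a b c h with h1 | h1 | ⟨h1, h2⟩
  · refine ⟨0, Or.inl ?_⟩
    simp only
    rw [XF_eq hF ha h1]
    exact ⟨ha, rfl, h⟩
  · refine ⟨0, Or.inr ?_⟩
    simp only
    rw [XF_eq hF ha h1]
    exact ⟨ha, rfl, h⟩
  · have hbne : b ≠ 1 := by
      rintro rfl
      rw [hr.one] at h2
      exact absurd h2 (not_lt.2 zero_le)
    have hbine : b⁻¹ ≠ 1 := by
      intro h0; exact hbne (inv_eq_one.1 h0)
    have hbi : rk b⁻¹ = rk b := hr.inv b trivial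
    have hbc : b * c = a⁻¹ := by
      have : a * (b * c) = 1 := by rw [← mul_assoc]; exact h
      exact (inv_eq_of_mul_eq_one_right this).symm
    have hteq : tt b⁻¹ = tt c := by
      apply ht2 _ _ (hbi.trans h1)
      rw [inv_inv, hbc, hr.inv _ trivial, hbi]
      exact h2
    obtain ⟨-, t3⟩ := ht1 _ hbine
    rw [inv_inv] at t3
    have hb' : ((tt b⁻¹)⁻¹ * b⁻¹)⁻¹ = b * tt b⁻¹ := by group
    obtain ⟨n, hn⟩ := ih (rk (((tt b⁻¹)⁻¹ * b⁻¹)⁻¹)) (by
      rw [hb']; exact t3.trans_le (hbi.le.trans hb)) (((tt b⁻¹)⁻¹ * b⁻¹)⁻¹) ((tt c)⁻¹ * c) le_rfl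
      (by rw [hteq, ← h]; group)
    exact ⟨n + 1, hteq, hn⟩

lemma TT_meas (hE : #E ≤ 𝔠) (hr : IsRank (⊤ : Subgroup E) rk)
    (hF : ∀ x ∈ F, ∀ y ∈ F, rk x = rk y → x = y) :
    MeasurableSet {p : ℝ × Ds E × Ds E | ∃ a ∈ F, r a = p.1 ∧ a * p.2.1.x * p.2.2.x = 1} := by
  obtain ⟨tt, ht1, ht2⟩ := exists_t hr
  have e1 : {p : ℝ × Ds E × Ds E | ∃ a ∈ F, r a = p.1 ∧ a * p.2.1.x * p.2.2.x = 1} =
      ⋃ n, TN F rk r tt n := by
    ext p
    rw [Set.mem_iUnion]
    constructor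
    · rintro ⟨a, ha, h1, h2⟩
      obtain ⟨n, hn⟩ := TN_complete hr hF ht1 ht2 ha (r := r) _ p.2.1.x p.2.2.x le_rfl h2
      rw [h1] at hn
      exact ⟨n, hn⟩
    · rintro ⟨n, hn⟩
      exact TN_sound n p hn
  rw [e1]
  exact MeasurableSet.iUnion fun n => TN_meas F rk r tt hE n

end TT

/-- The σ-algebra of the sets whose trace on `F` is the preimage of a Borel set. -/
@[instance_reducible]
def SF (F : Set E) (r : E → ℝ) : MeasurableSpace E :=
  MeasurableSpace.map (Subtype.val : F → E)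
    (MeasurableSpace.comap (fun x : F => r x) inferInstance)

section SF

variable (F : Set E) (r : E → ℝ)

lemma SF_F : MeasurableSet[SF F r] F := by
  refine ⟨Set.univ, MeasurableSet.univ, ?_⟩
  ext x
  simp

lemma SF_r : @Measurable E ℝ (SF F r) _ r := by
  intro B hB
  exact ⟨B, hB, rfl⟩

lemma SF_g {Y : Type*} [MeasurableSpace Y] (f : E → Y) :
    @Measurable E Y (SF F r) _ (fun x => by
      classical exact f (if x ∈ F then 1 else x)) := by
  classical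
  intro S _
  by_cases h : f 1 ∈ S
  · refine ⟨Set.univ, MeasurableSet.univ, ?_⟩
    ext x
    simp [h]
  · refine ⟨∅, MeasurableSet.empty, ?_⟩
    ext x
    simp [h]

/-- `g x = 1` on `F`, `g x = x` outside. -/
noncomputable def gF (x : E) : E := by
  classical exact if x ∈ F then 1 else x

lemma gF_of {x : E} (h : x ∉ F) : gF F x = x := by
  unfold gF; rw [if_neg h]

lemma gF_meas {Y : Type*} [MeasurableSpace Y] (f : E → Y) :
    @Measurable E Y (SF F r) _ (fun x => f (gF F x)) := SF_g F r f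

variable {F r}

lemma lemB {Ω : Type*} [MeasurableSpace Ω] (hr : Set.InjOn r F) {x y z : Ω → E}
    (hx : @Measurable Ω E _ (SF F r) x) (hy : @Measurable Ω E _ (SF F r) y)
    (hz : @Measurable Ω E _ (SF F r) z) (φ ψ : E → E) :
    MeasurableSet {w | x w ∈ F ∧ y w ∈ F ∧ z w ∉ F ∧ x w = φ (z w) ∧ y w = ψ (z w)} := by
  have e1 : {w | x w ∈ F ∧ y w ∈ F ∧ z w ∉ F ∧ x w = φ (z w) ∧ y w = ψ (z w)} =
      (x ⁻¹' F) ∩ (y ⁻¹' F) ∩ (z ⁻¹' Fᶜ) ∩
      {w | (⟨gF F (z w)⟩ : Ds E) ∈ {s : Ds E | φ s.x ∈ F ∧ ψ s.x ∈ F}} ∩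
      {w | r (x w) = r (φ (gF F (z w)))} ∩ {w | r (y w) = r (ψ (gF F (z w)))} := by
    ext w
    simp only [Set.mem_inter_iff, Set.mem_preimage, Set.mem_ofPred_eq, Set.mem_compl_iff]
    constructor
    · rintro ⟨h1, h2, h3, h4, h5⟩
      rw [gF_of F h3, ← h4, ← h5]
      exact ⟨⟨⟨⟨⟨h1, h2⟩, h3⟩, h1, h2⟩, rfl⟩, rfl⟩
    · rintro ⟨⟨⟨⟨⟨h1, h2⟩, h3⟩, h4, h5⟩, h6⟩, h7⟩
      rw [gF_of F h3] at h4 h5 h6 h7
      exact ⟨h1, h2, h3, hr h1 h4 h6, hr h2 h5 h7⟩
  rw [e1]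
  refine ((((((hx (SF_F F r)).inter (hy (SF_F F r))).inter (hz ?_)).inter ?_).inter ?_).inter ?_)
  · exact @MeasurableSet.compl _ _ (SF F r) (SF_F F r)
  · have := @Measurable.comp Ω E (Ds E) _ (SF F r) _ _ _ (gF_meas F r (fun x => (⟨x⟩ : Ds E))) hz
    exact this (MeasurableSet.of_discrete (s := {s : Ds E | φ s.x ∈ F ∧ ψ s.x ∈ F}))
  · have m1 := @Measurable.comp Ω E ℝ _ (SF F r) _ _ _ (SF_r F r) hx
    have m2 := @Measurable.comp Ω E ℝ _ (SF F r) _ (fun x => r (φ (gF F x))) _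
      (gF_meas F r (fun x => r (φ x))) hz
    exact measurableSet_eq_fun m1 m2
  · have m1 := @Measurable.comp Ω E ℝ _ (SF F r) _ _ _ (SF_r F r) hy
    have m2 := @Measurable.comp Ω E ℝ _ (SF F r) _ (fun x => r (ψ (gF F x))) _
      (gF_meas F r (fun x => r (ψ x))) hz
    exact measurableSet_eq_fun m1 m2

lemma lemC {Ω : Type*} [MeasurableSpace Ω] (hr : Set.InjOn r F) {x y z : Ω → E}
    (hx : @Measurable Ω E _ (SF F r) x) (hy : @Measurable Ω E _ (SF F r) y)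
    (hz : @Measurable Ω E _ (SF F r) z) (c : E) :
    MeasurableSet {w | x w ∈ F ∧ y w ∈ F ∧ z w ∉ F ∧ x w = y w ∧ z w = c} := by
  have e1 : {w | x w ∈ F ∧ y w ∈ F ∧ z w ∉ F ∧ x w = y w ∧ z w = c} =
      (x ⁻¹' F) ∩ (y ⁻¹' F) ∩ (z ⁻¹' Fᶜ) ∩
      {w | (⟨gF F (z w)⟩ : Ds E) ∈ {s : Ds E | s.x = c}} ∩
      {w | r (x w) = r (y w)} := by
    ext w
    simp only [Set.mem_inter_iff, Set.mem_preimage, Set.mem_ofPred_eq, Set.mem_compl_iff]
    constructor
    · rintro ⟨h1, h2, h3, h4, h5⟩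
      rw [gF_of F h3, ← h4]
      exact ⟨⟨⟨⟨h1, h1⟩, h3⟩, h5⟩, rfl⟩
    · rintro ⟨⟨⟨⟨h1, h2⟩, h3⟩, h4⟩, h6⟩
      rw [gF_of F h3] at h4
      exact ⟨h1, h2, h3, hr h1 h2 h6, h4⟩
  rw [e1]
  refine (((((hx (SF_F F r)).inter (hy (SF_F F r))).inter (hz ?_)).inter ?_).inter ?_)
  · exact @MeasurableSet.compl _ _ (SF F r) (SF_F F r)
  · have := @Measurable.comp Ω E (Ds E) _ (SF F r) _ _ _ (gF_meas F r (fun x => (⟨x⟩ : Ds E))) hz
    exact this (MeasurableSet.of_discrete (s := {s : Ds E | s.x = c}))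
  · exact measurableSet_eq_fun (@Measurable.comp Ω E ℝ _ (SF F r) _ _ _ (SF_r F r) hx)
      (@Measurable.comp Ω E ℝ _ (SF F r) _ _ _ (SF_r F r) hy)

end SF

end Pool.Agent.R361.AB
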