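import Mathlib
import Pool.Agent.R361.AB.T2

/-! The multiplication table for the σ-algebra `SF` (MP_c06a36_lc). -/

universe u

open Cardinal Ordinal MeasureTheory

namespace Pool.Agent.R361.AB

variable {E : Type u} [Group E]

lemma three' {rk : E → Ordinal.{u}} (hr : IsRank (⊤ : Subgroup E) rk) {w v z : E}
    (h : w * v = z) : rk w = rk v ∨ rk w = rk z ∨ rk v = rk z := by
  have h1 : w * v * z⁻¹ = 1 := by rw [h]; group
  have hz : rk z⁻¹ = rk z := hr.inv z trivial
  rcases rk_three hr w v z⁻¹ h1 with h2 | h2 | ⟨h2, -⟩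
  · exact Or.inl h2
  · exact Or.inr (Or.inl (h2.trans hz))
  · exact Or.inr (Or.inr (h2.trans hz))

theorem table_SF (hE : #E ≤ 𝔠) {rk : E → Ordinal.{u}} (hr : IsRank (⊤ : Subgroup E) rk)
    {F : Set E} {r : E → ℝ} (hF : ∀ x ∈ F, ∀ y ∈ F, rk x = rk y → x = y) (h1 : (1 : E) ∉ F)
    (hrF : Set.InjOn r F)
    (hsq : (∀ x ∈ F, rk (x * x) = rk x) ∨ ∃ c, c ∉ F ∧ ∀ x ∈ F, x * x = c) :
    MeasurableSet[@Prod.instMeasurableSpace E (E × E) (SF F r)
      (@Prod.instMeasurableSpace E E (SF F r) (SF F r))]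
      {p : E × E × E | p.1 * p.2.1 = p.2.2} := by
  let _ : MeasurableSpace E := SF F r
  have mF : MeasurableSet F := SF_F F r
  have mr : Measurable r := SF_r F r
  have mg : Measurable (fun x => (⟨gF F x⟩ : Ds E)) := gF_meas F r (fun x => (⟨x⟩ : Ds E))
  have mgi : Measurable (fun x => (⟨(gF F x)⁻¹⟩ : Ds E)) := gF_meas F r (fun x => (⟨x⁻¹⟩ : Ds E))
  have p1 : Measurable (fun p : E × E × E => p.1) := measurable_fst
  have p2 : Measurable (fun p : E × E × E => p.2.1) := measurable_fst.comp measurable_snd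
  have p3 : Measurable (fun p : E × E × E => p.2.2) := measurable_snd.comp measurable_snd
  have hTT := TT_meas (F := F) (r := r) hE hr hF
  have hTT' := TT_meas (F := {x | x⁻¹ ∈ F}) (rk := rk) (r := fun a => r a⁻¹) hE hr (by
    intro x hx y hy hxy
    have := hF x⁻¹ hx y⁻¹ hy (by rw [hr.inv x trivial, hr.inv y trivial]; exact hxy)
    exact inv_injective this)
  have A222 : MeasurableSet {p : E × E × E | p.1 ∉ F ∧ p.2.1 ∉ F ∧ p.2.2 ∉ F ∧
      p.1 * p.2.1 = p.2.2} := by
    have h := ((mg.comp p1).prodMk ((mg.comp p2).prodMk (mg.comp p3))) (table_Ds (E := E) hE)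
    have h' := ((p1 mF.compl).inter ((p2 mF.compl).inter (p3 mF.compl))).inter h
    convert h' using 1
    ext p
    simp only [Set.mem_ofPred_eq, Set.mem_inter_iff, Set.mem_preimage, Set.mem_compl_iff,
      Function.comp]
    constructor
    · rintro ⟨a, b, c, d⟩
      rw [gF_of F a, gF_of F b, gF_of F c]
      exact ⟨⟨a, b, c⟩, d⟩
    · rintro ⟨⟨a, b, c⟩, d⟩
      rw [gF_of F a, gF_of F b, gF_of F c] at d
      exact ⟨a, b, c, d⟩
  have A122 : MeasurableSet {p : E × E × E | p.1 ∈ F ∧ p.2.1 ∉ F ∧ p.2.2 ∉ F ∧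
      p.1 * p.2.1 = p.2.2} := by
    have h := ((mr.comp p1).prodMk ((mg.comp p2).prodMk (mgi.comp p3))) hTT
    have h' := ((p1 mF).inter ((p2 mF.compl).inter (p3 mF.compl))).inter h
    convert h' using 1
    ext p
    simp only [Set.mem_ofPred_eq, Set.mem_inter_iff, Set.mem_preimage, Set.mem_compl_iff,
      Function.comp]
    constructor
    · rintro ⟨a, b, c, d⟩
      rw [gF_of F b, gF_of F c]
      exact ⟨⟨a, b, c⟩, p.1, a, rfl, by rw [d]; group⟩
    · rintro ⟨⟨a, b, c⟩, x, hx, hxr, d⟩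
      rw [gF_of F b, gF_of F c] at d
      have := hrF hx a hxr
      rw [this] at d
      exact ⟨a, b, c, mul_inv_eq_one.1 d⟩
  have A212 : MeasurableSet {p : E × E × E | p.1 ∉ F ∧ p.2.1 ∈ F ∧ p.2.2 ∉ F ∧
      p.1 * p.2.1 = p.2.2} := by
    have h := ((mr.comp p2).prodMk ((mgi.comp p3).prodMk (mg.comp p1))) hTT
    have h' := ((p1 mF.compl).inter ((p2 mF).inter (p3 mF.compl))).inter h
    convert h' using 1
    ext p
    simp only [Set.mem_ofPred_eq, Set.mem_inter_iff, Set.mem_preimage, Set.mem_compl_iff,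
      Function.comp]
    constructor
    · rintro ⟨a, b, c, d⟩
      rw [gF_of F a, gF_of F c]
      exact ⟨⟨a, b, c⟩, p.2.1, b, rfl, by rw [← d]; group⟩
    · rintro ⟨⟨a, b, c⟩, x, hx, hxr, d⟩
      rw [gF_of F a, gF_of F c] at d
      have := hrF hx b hxr
      rw [this] at d
      refine ⟨a, b, c, ?_⟩
      have e : p.1 * p.2.1 * p.2.2⁻¹ = p.1 * (p.2.1 * p.2.2⁻¹ * p.1) * p.1⁻¹ := by group
      rw [d] at e
      exact mul_inv_eq_one.1 (e.trans (by group))
  have A221 : MeasurableSet {p : E × E × E | p.1 ∉ F ∧ p.2.1 ∉ F ∧ p.2.2 ∈ F ∧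
      p.1 * p.2.1 = p.2.2} := by
    have h := ((mr.comp p3).prodMk ((mg.comp p1).prodMk (mg.comp p2))) hTT'
    have h' := ((p1 mF.compl).inter ((p2 mF.compl).inter (p3 mF))).inter h
    convert h' using 1
    ext p
    simp only [Set.mem_ofPred_eq, Set.mem_inter_iff, Set.mem_preimage, Set.mem_compl_iff,
      Function.comp]
    constructor
    · rintro ⟨a, b, c, d⟩
      rw [gF_of F a, gF_of F b]
      exact ⟨⟨a, b, c⟩, p.2.2⁻¹, by rw [inv_inv]; exact c, by rw [inv_inv], by rw [← d]; group⟩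
    · rintro ⟨⟨a, b, c⟩, x, hx, hxr, d⟩
      rw [gF_of F a, gF_of F b] at d
      have := hrF hx c hxr
      refine ⟨a, b, c, ?_⟩
      rw [← this]
      have d' : x * (p.1 * p.2.1) = 1 := by rw [← mul_assoc]; exact d
      exact (inv_eq_of_mul_eq_one_right d').symm
  set X := XF F rk with hX
  have hXe : ∀ {a b : E}, a ∈ F → rk a = rk b → X b = a := fun ha h => XF_eq hF ha h
  have A112 : MeasurableSet {p : E × E × E | p.1 ∈ F ∧ p.2.1 ∈ F ∧ p.2.2 ∉ F ∧
      p.1 * p.2.1 = p.2.2} := by
    have b1 := lemB (F := F) (r := r) hrF p1 p2 p3 X (fun z => (X z)⁻¹ * z)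
    have b2 := lemB (F := F) (r := r) hrF p1 p2 p3 (fun z => z * (X z)⁻¹) X
    rcases hsq with hsq | ⟨c, hc, hsq⟩
    · convert b1.union b2 using 1
      ext p
      simp only [Set.mem_ofPred_eq, Set.mem_union]
      constructor
      · rintro ⟨a, b, c, d⟩
        rcases three' hr d with h | h | h
        · have e := hF _ a _ b h
          have h2 : rk p.1 = rk p.2.2 := by rw [← d, ← e]; exact (hsq _ a).symm
          left
          rw [hXe a h2]
          exact ⟨a, b, c, rfl, by rw [← d]; group⟩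
        · left
          rw [hXe a h]
          exact ⟨a, b, c, rfl, by rw [← d]; group⟩
        · right
          rw [hXe b h]
          exact ⟨a, b, c, by rw [← d]; group, rfl⟩
      · rintro (⟨a, b, c, d, e⟩ | ⟨a, b, c, d, e⟩)
        · refine ⟨a, b, c, ?_⟩
          rw [d, e]; group
        · refine ⟨a, b, c, ?_⟩
          rw [d, e]; group
    · have b3 := lemC (F := F) (r := r) hrF p1 p2 p3 c
      convert (b1.union b2).union b3 using 1
      ext p
      simp only [Set.mem_ofPred_eq, Set.mem_union]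
      constructor
      · rintro ⟨a, b, c', d⟩
        rcases three' hr d with h | h | h
        · have e := hF _ a _ b h
          right
          refine ⟨a, b, c', e, ?_⟩
          rw [← d, ← e]; exact hsq _ a
        · left; left
          rw [hXe a h]
          exact ⟨a, b, c', rfl, by rw [← d]; group⟩
        · left; right
          rw [hXe b h]
          exact ⟨a, b, c', by rw [← d]; group, rfl⟩
      · rintro ((⟨a, b, c', d, e⟩ | ⟨a, b, c', d, e⟩) | ⟨a, b, c', d, e⟩)
        · refine ⟨a, b, c', ?_⟩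
          rw [d, e]; group
        · refine ⟨a, b, c', ?_⟩
          rw [d, e]; group
        · refine ⟨a, b, c', ?_⟩
          rw [e, ← d]; exact hsq _ a
  have A121 : MeasurableSet {p : E × E × E | p.1 ∈ F ∧ p.2.1 ∉ F ∧ p.2.2 ∈ F ∧
      p.1 * p.2.1 = p.2.2} := by
    have b1 := lemB (F := F) (r := r) hrF p1 p3 p2 X (fun z => X z * z)
    have b2 := lemB (F := F) (r := r) hrF p1 p3 p2 (fun z => X z * z⁻¹) X
    have b3 := lemC (F := F) (r := r) hrF p1 p3 p2 1
    convert (b1.union b2).union b3 using 1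
    ext p
    simp only [Set.mem_ofPred_eq, Set.mem_union]
    constructor
    · rintro ⟨a, b, c, d⟩
      rcases three' hr d with h | h | h
      · left; left
        rw [hXe a h]
        exact ⟨a, c, b, rfl, d.symm⟩
      · right
        have e := hF _ a _ c h
        refine ⟨a, c, b, e, ?_⟩
        rw [← e] at d
        exact mul_eq_left.1 d
      · left; right
        rw [hXe c h.symm]
        exact ⟨a, c, b, by rw [← d]; group, rfl⟩
    · rintro ((⟨a, b, c', d, e⟩ | ⟨a, b, c', d, e⟩) | ⟨a, b, c', d, e⟩)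
      · refine ⟨a, c', b, ?_⟩
        rw [d, e]
      · refine ⟨a, c', b, ?_⟩
        rw [d, e]; group
      · refine ⟨a, c', b, ?_⟩
        rw [e, ← d, mul_one]
  have A211 : MeasurableSet {p : E × E × E | p.1 ∉ F ∧ p.2.1 ∈ F ∧ p.2.2 ∈ F ∧
      p.1 * p.2.1 = p.2.2} := by
    have b1 := lemB (F := F) (r := r) hrF p2 p3 p1 X (fun z => z * X z)
    have b2 := lemB (F := F) (r := r) hrF p2 p3 p1 (fun z => z⁻¹ * X z) X
    have b3 := lemC (F := F) (r := r) hrF p2 p3 p1 1
    convert (b1.union b2).union b3 using 1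
    ext p
    simp only [Set.mem_ofPred_eq, Set.mem_union]
    constructor
    · rintro ⟨a, b, c, d⟩
      rcases three' hr d with h | h | h
      · left; left
        rw [hXe b h.symm]
        exact ⟨b, c, a, rfl, d.symm⟩
      · left; right
        rw [hXe c h.symm]
        exact ⟨b, c, a, by rw [← d]; group, rfl⟩
      · right
        have e := hF _ b _ c h
        refine ⟨b, c, a, e, ?_⟩
        rw [← e] at d
        exact mul_eq_right.1 d
    · rintro ((⟨a, b, c', d, e⟩ | ⟨a, b, c', d, e⟩) | ⟨a, b, c', d, e⟩)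
      · refine ⟨c', a, b, ?_⟩
        rw [d, e]
      · refine ⟨c', a, b, ?_⟩
        rw [d, e]; group
      · refine ⟨c', a, b, ?_⟩
        rw [e, ← d, one_mul]
  have A111 : ∀ p : E × E × E, p.1 ∈ F → p.2.1 ∈ F → p.2.2 ∈ F → p.1 * p.2.1 ≠ p.2.2 := by
    intro p a b c d
    rcases three' hr d with h | h | h
    · have e := hF _ a _ b h
      rcases hsq with hsq | ⟨c0, hc, hsq⟩
      · have h2 : rk p.1 = rk p.2.2 := by rw [← d, ← e]; exact (hsq _ a).symm
        have e2 := hF _ a _ c h2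
        rw [← e2] at d
        rw [mul_eq_left.1 d] at b
        exact h1 b
      · apply hc
        rw [← hsq _ a]
        rw [← d, ← e] at c
        exact c
    · have e := hF _ a _ c h
      rw [← e] at d
      rw [mul_eq_left.1 d] at b
      exact h1 b
    · have e := hF _ b _ c h
      rw [← e] at d
      rw [mul_eq_right.1 d] at a
      exact h1 a
  have htot := ((A222.union (A122.union (A212.union A221))).union
    (A112.union (A121.union A211)))
  convert htot using 1
  ext p
  simp only [Set.mem_ofPred_eq, Set.mem_union]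
  constructor
  · intro h
    by_cases a : p.1 ∈ F <;> by_cases b : p.2.1 ∈ F <;> by_cases c : p.2.2 ∈ F
    · exact absurd h (A111 p a b c)
    · exact Or.inr (Or.inl ⟨a, b, c, h⟩)
    · exact Or.inr (Or.inr (Or.inl ⟨a, b, c, h⟩))
    · exact Or.inl (Or.inr (Or.inl ⟨a, b, c, h⟩))
    · exact Or.inr (Or.inr (Or.inr ⟨a, b, c, h⟩))
    · exact Or.inl (Or.inr (Or.inr (Or.inl ⟨a, b, c, h⟩)))
    · exact Or.inl (Or.inr (Or.inr (Or.inr ⟨a, b, c, h⟩)))
    · exact Or.inl (Or.inl ⟨a, b, c, h⟩)
  · rintro ((h | h | h | h) | h | h | h) <;> exact h.2.2.2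

end Pool.Agent.R361.AB
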