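import Mathlib
import Pool.Agent.R361.AB.AC1
import Pool.Agent.R361.AB.AC3
import Pool.Agent.R361.AB.T4

/-! Ladders and disjoint non-null sets (MP_c06a36_lc). -/

open Cardinal MeasureTheory
open scoped ENNReal

namespace Pool.Agent.R361.AB

section

variable {I : Type} [LinearOrder I] [WellFoundedLT I]

/-- Sequences of reals whose levels along the ladder `ℓ` increase strictly along `π`. -/
def PP (C : I → Set ℝ) (ℓ : ℕ → I) (π : Equiv.Perm ℕ) : Set (ℕ → ℝ) :=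
  {x | (∀ n, ∃ k, x n ∈ C (ℓ k)) ∧ ∀ n, ∃ k, x (π n) ∈ C (ℓ k) ∧ x (π (n + 1)) ∉ C (ℓ k)}

/-- `ℓ` is a ladder for `j`. -/
def IsLad (j : I) (ℓ : ℕ → I) : Prop := Monotone ℓ ∧ (∀ k, ℓ k < j) ∧ ∀ i < j, ∃ k, i ≤ ℓ k

variable {C : I → Set ℝ} (hC : Monotone C)

include hC in
lemma PP_level {ℓ : ℕ → I} (hℓ : Monotone ℓ) {π : Equiv.Perm ℕ} {x : ℕ → ℝ} (hx : x ∈ PP C ℓ π) :
    ∃ f : ℕ → ℕ, (∀ n k, x n ∈ C (ℓ k) ↔ f n ≤ k) ∧ StrictMono (fun n => f (π n)) := by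
  classical
  refine ⟨fun n => Nat.find (hx.1 n), ?_, ?_⟩
  · intro n k
    constructor
    · intro h
      exact Nat.find_min' _ h
    · intro h
      exact hC (hℓ h) (Nat.find_spec (hx.1 n))
  · apply strictMono_nat_of_lt_succ
    intro n
    obtain ⟨k, h1, h2⟩ := hx.2 n
    have h3 : Nat.find (hx.1 (π n)) ≤ k := Nat.find_min' _ h1
    refine h3.trans_lt ?_
    rw [← not_le]
    intro h4
    exact h2 (hC (hℓ h4) (Nat.find_spec (hx.1 (π (n + 1)))))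

include hC in
lemma PP_disj_aux {j j' : I} {ℓ ℓ' : ℕ → I} (hℓ : IsLad j ℓ) (hℓ' : IsLad j' ℓ')
    {π π' : Equiv.Perm ℕ} {x : ℕ → ℝ} (hx : x ∈ PP C ℓ π) (hx' : x ∈ PP C ℓ' π') : ¬ j < j' := by
  intro hjj
  obtain ⟨f', hf1, hf2⟩ := PP_level hC hℓ'.1 hx'
  obtain ⟨k', hk'⟩ := hℓ'.2.2 j hjj
  have h1 : ∀ n, f' n ≤ k' := by
    intro n
    rw [← hf1 n k']
    obtain ⟨k, hk⟩ := hx.1 n
    exact hC ((hℓ.2.1 k).le.trans hk') hk
  have h2 := hf2.id_le (k' + 1)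
  have h3 := h1 (π' (k' + 1))
  simp only [id] at h2
  omega

include hC in
lemma PP_disj {L : I → ℕ → I} {j j' : I} (hℓ : IsLad j (L j)) (hℓ' : IsLad j' (L j'))
    {π π' : Equiv.Perm ℕ} {x : ℕ → ℝ} (hx : x ∈ PP C (L j) π) (hx' : x ∈ PP C (L j') π') :
    j = j' ∧ π = π' := by
  have h1 := PP_disj_aux hC hℓ hℓ' hx hx'
  have h2 := PP_disj_aux hC hℓ' hℓ hx' hx
  have h3 : j = j' := le_antisymm (not_lt.1 h2) (not_lt.1 h1)
  subst h3
  refine ⟨rfl, ?_⟩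
  obtain ⟨f, hf1, hf2⟩ := PP_level hC hℓ.1 hx
  obtain ⟨f', hf1', hf2'⟩ := PP_level hC hℓ.1 hx'
  have h4 : f = f' := by
    funext n
    apply le_antisymm
    · rw [← hf1 n, hf1' n]
    · rw [← hf1' n, hf1 n]
  rw [← h4] at hf2'
  have h5 : Set.range (fun n => f (π n)) = Set.range (fun n => f (π' n)) := by
    rw [show (fun n => f (π n)) = f ∘ π from rfl, show (fun n => f (π' n)) = f ∘ π' from rfl,
      π.surjective.range_comp, π'.surjective.range_comp]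
  have h6 := (StrictMono.range_inj hf2 hf2').1 h5
  have hinj : Function.Injective f := by
    intro a b hab
    have := hf2.injective (a₁ := π.symm a) (a₂ := π.symm b) (by simpa using hab)
    exact π.symm.injective this
  ext n
  exact hinj (congrFun h6 n)

lemma PP_perm {ℓ : ℕ → I} {π : Equiv.Perm ℕ} {x : ℕ → ℝ} :
    x ∈ PP C ℓ π ↔ (fun n => x (π n)) ∈ PP C ℓ 1 := by
  constructor
  · rintro ⟨h1, h2⟩
    exact ⟨fun n => h1 (π n), h2⟩
  · rintro ⟨h1, h2⟩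
    refine ⟨fun n => ?_, h2⟩
    have := h1 (π.symm n)
    simpa using this

lemma nonnull_id (hC : Monotone C) (μ : Measure ℝ) [IsProbabilityMeasure μ] [Nonempty I]
    (hmeet : ∀ i, ∀ B : Set ℝ, MeasurableSet B → μ B ≠ 0 → ∃ x ∈ B, x ∈ {x | x ∉ C i ∧ ∃ r, x ∈ C r})
    (hbd : ∀ D : Set I, D.Countable → ∃ j, ∀ d ∈ D, d < j)
    (L : I → ℕ → I) (hL : ∀ j, (∃ ℓ, IsLad j ℓ) → IsLad j (L j)) :
    rho μ (⋃ j, ⋃ _ : IsLad j (L j), PP C (L j) 1) ≠ 0 := by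
  classical
  intro h0
  obtain ⟨O, hO1, hO2, hO3⟩ := Set.exists_isOpen_lt_of_lt
    (⋃ j, ⋃ _ : IsLad j (L j), PP C (L j) 1) 1 (by rw [h0]; exact one_pos)
  let S := {A : Set (ℕ → ℝ) // MeasurableSet A ∧ rho μ A < 1}
  have step : ∀ (A : S) (i : I), ∃ x : ℝ, x ∈ {x | x ∉ C i ∧ ∃ r, x ∈ C r} ∧
      rho μ {y | cons x y ∈ A.1} < 1 := fun A i => one_step μ A.2.1 A.2.2 (hmeet i)
  choose st hst1 hst2 using step
  have hst3 : ∀ A i, ∃ r, st A i ∈ C r := fun A i => (hst1 A i).2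
  choose rr hrr using hst3
  have hmc : ∀ t : ℝ, Measurable (cons t) := fun t => measurable_cons.comp measurable_prodMk_left
  let nx : S → I → S := fun A i => ⟨{y | cons (st A i) y ∈ A.1}, hmc _ A.2.1, hst2 A i⟩
  let A0 : S := ⟨O, hO2.measurableSet, hO3⟩
  obtain ⟨i0⟩ := ‹Nonempty I›
  obtain ⟨R, D, hDc, hA0, hi0, hcl⟩ := exists_closed A0 i0 nx rr
  obtain ⟨j, hj, hmin⟩ : ∃ j, (∀ d ∈ D, d < j) ∧ ∀ i < j, ∃ d ∈ D, i ≤ d := by
    obtain ⟨j, hj, hmin⟩ := (wellFounded_lt (α := I)).has_min {j | ∀ d ∈ D, d < j} (hbd D hDc)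
    refine ⟨j, hj, fun i hi => ?_⟩
    by_contra hcon
    push Not at hcon
    exact hmin i hcon hi
  have hlad : ∃ ℓ, IsLad j ℓ := by
    obtain ⟨f, hf⟩ := hDc.exists_eq_range ⟨i0, hi0⟩
    have hfD : ∀ k, f k ∈ D := fun k => by rw [hf]; exact ⟨k, rfl⟩
    refine ⟨partialSups f, (partialSups f).monotone, ?_, ?_⟩
    · intro k
      induction k with
      | zero => rw [partialSups_zero]; exact hj _ (hfD 0)
      | succ k ih => rw [partialSups_add_one]; exact max_lt ih (hj _ (hfD _))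
    · intro i hi
      obtain ⟨d, hd, hid⟩ := hmin i hi
      rw [hf] at hd
      obtain ⟨k, rfl⟩ := hd
      exact ⟨k, hid.trans (le_partialSups f k)⟩
  have hLj := hL j hlad
  have hg : ∀ r, ∃ i, r ∈ D → i ∈ D ∧ ∃ k, r ≤ L j k ∧ L j k ≤ i := by
    intro r
    by_cases hr : r ∈ D
    · obtain ⟨k, hk⟩ := hLj.2.2 r (hj r hr)
      obtain ⟨i, hi, hki⟩ := hmin (L j k) (hLj.2.1 k)
      exact ⟨i, fun _ => ⟨hi, k, hk, hki⟩⟩
    · exact ⟨r, fun h => absurd h hr⟩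
  choose g hg using hg
  let q : ℕ → S × I := fun n => Nat.rec (A0, i0) (fun _ p => (nx p.1 p.2, g (rr p.1 p.2))) n
  have qs : ∀ n, q (n + 1) = (nx (q n).1 (q n).2, g (rr (q n).1 (q n).2)) := fun n => rfl
  have hq : ∀ n, (q n).1 ∈ R ∧ (q n).2 ∈ D := by
    intro n
    induction n with
    | zero => exact ⟨hA0, hi0⟩
    | succ n ih =>
      rw [qs]
      have := hcl _ ih.1 _ ih.2
      exact ⟨this.1, (hg _ this.2).1⟩
  set x : ℕ → ℝ := fun n => st (q n).1 (q n).2 with hx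
  have hxP : x ∈ PP C (L j) 1 := by
    have key : ∀ n, ∃ k, x n ∈ C (L j k) ∧ x (n + 1) ∉ C (L j k) := by
      intro n
      have h1 := hcl _ (hq n).1 _ (hq n).2
      obtain ⟨k, hk1, hk2⟩ := (hg _ h1.2).2
      refine ⟨k, hC hk1 (hrr (q n).1 (q n).2), fun h2 => ?_⟩
      have h3 : x (n + 1) ∉ C (q (n + 1)).2 := (hst1 (q (n + 1)).1 (q (n + 1)).2).1
      apply h3
      rw [qs]
      exact hC hk2 h2
    refine ⟨fun n => ?_, key⟩
    obtain ⟨k, hk, -⟩ := key n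
    exact ⟨k, hk⟩
  have hxO : x ∈ O := hO1 (Set.mem_iUnion₂.2 ⟨j, hLj, hxP⟩)
  let cc : ℕ → (ℕ → ℝ) → ℕ → ℝ := fun n y m => if m < n then x m else y (m - n)
  have hcc : ∀ n, (q n).1.1 = {y | cc n y ∈ O} := by
    intro n
    induction n with
    | zero =>
      have : ∀ y, cc 0 y = y := fun y => by funext m; simp [cc]
      simp only [this]
      rfl
    | succ n ih =>
      have e1 : (q (n + 1)).1.1 = {y | cons (x n) y ∈ (q n).1.1} := rfl
      rw [e1, ih]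
      have : ∀ y, cc n (cons (x n) y) = cc (n + 1) y := by
        intro y
        funext m
        simp only [cc]
        rcases lt_trichotomy m n with h | h | h
        · rw [if_pos h, if_pos (h.trans (Nat.lt_succ_self n))]
        · rw [if_neg (by omega), if_pos (by omega), h, Nat.sub_self, cons_zero]
        · rw [if_neg (by omega), if_neg (by omega)]
          obtain ⟨d, rfl⟩ := Nat.exists_eq_add_of_lt h
          have e2 : n + d + 1 - n = d + 1 := by omega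
          have e3 : n + d + 1 - (n + 1) = d := by omega
          rw [e2, e3, cons_succ]
      simp only [Set.mem_ofPred_eq, this]
  obtain ⟨F, u, hu1, hu2⟩ := isOpen_pi_iff.1 hO2 x hxO
  have hN : ∀ a ∈ F, a < F.sup id + 1 := fun a ha => Nat.lt_succ_of_le (Finset.le_sup (f := id) ha)
  have h1 : (q (F.sup id + 1)).1.1 = Set.univ := by
    refine (hcc (F.sup id + 1)).trans ?_
    rw [Set.eq_univ_iff_forall]
    intro y
    apply hu2
    intro a ha
    simp only [cc]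
    rw [if_pos (hN a ha)]
    exact (hu1 a ha).2
  have h2 := (q (F.sup id + 1)).1.2.2
  rw [h1, measure_univ] at h2
  exact lt_irrefl _ h2

lemma nonnull_perm (hC : Monotone C) (μ : Measure ℝ) [IsProbabilityMeasure μ] [Nonempty I]
    (hmeet : ∀ i, ∀ B : Set ℝ, MeasurableSet B → μ B ≠ 0 → ∃ x ∈ B, x ∈ {x | x ∉ C i ∧ ∃ r, x ∈ C r})
    (hbd : ∀ D : Set I, D.Countable → ∃ j, ∀ d ∈ D, d < j)
    (L : I → ℕ → I) (hL : ∀ j, (∃ ℓ, IsLad j ℓ) → IsLad j (L j)) (π : Equiv.Perm ℕ) :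
    rho μ (⋃ j, ⋃ _ : IsLad j (L j), PP C (L j) π) ≠ 0 := by
  intro h0
  apply nonnull_id hC μ hmeet hbd L hL
  refine measure_mono_null ?_ ((rho_perm μ π⁻¹).quasiMeasurePreserving.preimage_null h0)
  intro x hx
  obtain ⟨j, hj, hx⟩ := Set.mem_iUnion₂.1 hx
  refine Set.mem_preimage.2 (Set.mem_iUnion₂.2 ⟨j, hj, ?_⟩)
  rw [PP_perm]
  convert hx using 1
  funext n
  simp

end

section

variable {I J : Type} (O : I → ℕ → Set ℝ) (hO : ∀ i m, IsOpen (O i m))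

include hO in
lemma base_meas (f : J → I) (a : J → ℕ) :
    MeasurableSet {p : (ℕ → ℝ) × Ds J | p.1 (a p.2.x) ∈ ⋂ m, O (f p.2.x) m} := by
  have e1 : {p : (ℕ → ℝ) × Ds J | p.1 (a p.2.x) ∈ ⋂ m, O (f p.2.x) m} =
      ⋂ m : ℕ, ⋃ n : ℕ, ⋃ b ∈ TopologicalSpace.countableBasis ℝ,
        ({p : (ℕ → ℝ) × Ds J | p.1 n ∈ b} ∩
          {p : (ℕ → ℝ) × Ds J | p.2 ∈ {s : Ds J | a s.x = n ∧ b ⊆ O (f s.x) m}}) := by
    ext p
    simp only [Set.mem_ofPred_eq, Set.mem_iInter, Set.mem_iUnion, Set.mem_inter_iff, exists_prop]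
    constructor
    · intro h m
      obtain ⟨b, hb, h1, h2⟩ := (TopologicalSpace.isBasis_countableBasis ℝ).exists_subset_of_mem_open
        (h m) (hO _ _)
      exact ⟨a p.2.x, b, hb, h1, rfl, h2⟩
    · intro h m
      obtain ⟨n, b, -, h1, h2, h3⟩ := h m
      apply h3
      rw [h2]
      exact h1
  rw [e1]
  refine MeasurableSet.iInter fun m => MeasurableSet.iUnion fun n =>
    MeasurableSet.biUnion (TopologicalSpace.countable_countableBasis ℝ) fun b hb => ?_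
  refine MeasurableSet.inter ?_ ?_
  · exact ((measurable_pi_apply n).comp measurable_fst)
      (TopologicalSpace.isOpen_of_mem_countableBasis hb).measurableSet
  · exact measurable_snd (MeasurableSet.of_discrete (s := {s : Ds J | a s.x = n ∧ b ⊆ O (f s.x) m}))

end

section

variable {I J : Type} [LinearOrder I] (O : I → ℕ → Set ℝ) (hO : ∀ i m, IsOpen (O i m))

include hO in
lemma PP_meas [WellFoundedLT I] (l : J → ℕ → I) (pm : J → Equiv.Perm ℕ) :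
    MeasurableSet {p : (ℕ → ℝ) × Ds J | p.1 ∈ PP (fun i => ⋂ m, O i m) (l p.2.x) (pm p.2.x)} := by
  have e1 : {p : (ℕ → ℝ) × Ds J | p.1 ∈ PP (fun i => ⋂ m, O i m) (l p.2.x) (pm p.2.x)} =
      (⋂ n : ℕ, ⋃ k : ℕ, {p : (ℕ → ℝ) × Ds J | p.1 n ∈ ⋂ m, O (l p.2.x k) m}) ∩
      (⋂ n : ℕ, ⋃ k : ℕ, ({p : (ℕ → ℝ) × Ds J | p.1 (pm p.2.x n) ∈ ⋂ m, O (l p.2.x k) m} ∩
        {p : (ℕ → ℝ) × Ds J | p.1 (pm p.2.x (n + 1)) ∈ ⋂ m, O (l p.2.x k) m}ᶜ)) := by
    ext p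
    simp only [PP, Set.mem_ofPred_eq, Set.mem_inter_iff, Set.mem_iInter, Set.mem_iUnion,
      Set.mem_compl_iff]
  rw [e1]
  refine MeasurableSet.inter ?_ ?_
  · exact MeasurableSet.iInter fun n => MeasurableSet.iUnion fun k =>
      base_meas O hO (fun s => l s k) (fun _ => n)
  · exact MeasurableSet.iInter fun n => MeasurableSet.iUnion fun k =>
      (base_meas O hO (fun s => l s k) (fun s => pm s n)).inter
        (base_meas O hO (fun s => l s k) (fun s => pm s (n + 1))).compl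

end

end Pool.Agent.R361.AB
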