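import Mathlib

/-! Cardinalities and the conditional measure (MP_c06a36_lc). -/

open Cardinal Ordinal MeasureTheory
open scoped ENNReal

namespace Pool.Agent.R361.AB

lemma exists_mu (Q : Set ℝ) (hQ : volume Q ≠ 0) : ∃ μ : Measure ℝ, IsProbabilityMeasure μ ∧
    (∀ N, volume N = 0 → μ N = 0) ∧ ∀ B, MeasurableSet B → μ B ≠ 0 → volume (Q ∩ B) ≠ 0 := by
  have hn : ∃ n : ℤ, volume (Q ∩ Set.Icc (n : ℝ) (n + 1)) ≠ 0 := by
    by_contra h
    push Not at h
    apply hQ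
    have h2 : Q ⊆ ⋃ n : ℤ, Q ∩ Set.Icc (n : ℝ) (n + 1) := by
      intro y hy
      exact Set.mem_iUnion.2 ⟨⌊y⌋, hy, Int.floor_le y, (Int.lt_floor_add_one y).le⟩
    exact measure_mono_null h2 (measure_iUnion_null h)
  obtain ⟨n, hn⟩ := hn
  set Q1 := Q ∩ Set.Icc (n : ℝ) (n + 1) with hQ1
  have hQtop : volume Q1 ≠ ∞ := by
    refine ((measure_mono Set.inter_subset_right).trans_lt ?_).ne
    rw [Real.volume_Icc]; exact ENNReal.ofReal_lt_top
  set H := toMeasurable volume Q1 with hH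
  have hHm : MeasurableSet H := measurableSet_toMeasurable _ _
  have hH1 : volume H = volume Q1 := measure_toMeasurable _
  refine ⟨(volume H)⁻¹ • volume.restrict H, ⟨?_⟩, ?_, ?_⟩
  · rw [Measure.smul_apply, Measure.restrict_apply MeasurableSet.univ, Set.univ_inter,
      _root_.smul_eq_mul]
    exact ENNReal.inv_mul_cancel (by rw [hH1]; exact hn) (by rw [hH1]; exact hQtop)
  · intro N hN
    have h1 : volume.restrict H N = 0 :=
      le_antisymm ((Measure.restrict_le_self N).trans hN.le) zero_le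
    rw [Measure.smul_apply, h1, smul_zero]
  · intro B hB hB0 h0
    apply hB0
    rw [Measure.smul_apply, Measure.restrict_apply hB, Set.inter_comm,
      Measure.measure_toMeasurable_inter hB hQtop]
    have : volume (Q1 ∩ B) = 0 :=
      measure_mono_null (Set.inter_subset_inter_left _ Set.inter_subset_left) h0
    rw [this, smul_zero]

lemma exists_Iio {θ : Cardinal.{0}} (hθ : θ < 𝔠) (S : Set (𝔠 : Cardinal.{0}).ord.ToType)
    (hS : ∀ a, ∃ b ∈ S, a ≤ b) : ∃ s : S, θ ≤ #(Set.Iio s.1) := by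
  obtain ⟨t, h2⟩ := typein_surj (r := ((· < ·) : (𝔠 : Cardinal.{0}).ord.ToType → _ → Prop))
    (o := θ.ord) (by rw [type_toType]; exact ord_lt_ord.2 hθ)
  obtain ⟨b, hb, htb⟩ := hS t
  refine ⟨⟨b, hb⟩, ?_⟩
  have h1 : #(Set.Iio t) ≤ #(Set.Iio b) := Cardinal.mk_le_mk_of_subset (Set.Iio_subset_Iio htb)
  refine le_trans ?_ h1
  have h3 := card_typein (r := ((· < ·) : (𝔠 : Cardinal.{0}).ord.ToType → _ → Prop)) t
  rw [h2, card_ord] at h3
  exact h3.le

lemma card_meas : #{M : Set (ℕ → ℝ) // MeasurableSet M} ≤ 𝔠 := by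
  have h1 : (inferInstance : MeasurableSpace (ℕ → ℝ)) =
      MeasurableSpace.generateFrom (TopologicalSpace.countableBasis (ℕ → ℝ)) := by
    rw [← (TopologicalSpace.isBasis_countableBasis (ℕ → ℝ)).borel_eq_generateFrom]
    exact BorelSpace.measurable_eq
  have h2 : #(TopologicalSpace.countableBasis (ℕ → ℝ)) ≤ 𝔠 :=
    (mk_le_aleph0_iff.2 (TopologicalSpace.countable_countableBasis (ℕ → ℝ)).to_subtype).trans
      aleph0_le_continuum
  have h3 := MeasurableSpace.cardinal_measurableSet_le_continuum h2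
  rw [← h1] at h3
  exact h3

lemma exists_enum (ρ : Measure (ℕ → ℝ)) : ∃ M : (𝔠 : Cardinal.{0}).ord.ToType → Set (ℕ → ℝ),
    (∀ ξ, ρ (M ξ) = 0) ∧ ∀ N, MeasurableSet N → ρ N = 0 → ∃ ξ, M ξ = N := by
  let T := {M : Set (ℕ → ℝ) // MeasurableSet M ∧ ρ M = 0}
  have h1 : #T ≤ #(𝔠 : Cardinal.{0}).ord.ToType := by
    have : #T ≤ #{M : Set (ℕ → ℝ) // MeasurableSet M} :=
      Cardinal.mk_le_of_injective (f := fun M : T => (⟨M.1, M.2.1⟩ : {M : Set (ℕ → ℝ) // MeasurableSet M}))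
        (fun a b hab => Subtype.ext (Subtype.mk.inj hab))
    refine (this.trans card_meas).trans ?_
    simp
  obtain ⟨g⟩ := Cardinal.le_def _ _ |>.1 h1
  have : Nonempty T := ⟨⟨∅, MeasurableSet.empty, measure_empty⟩⟩
  refine ⟨fun ξ => (Function.invFun g ξ).1, fun ξ => (Function.invFun g ξ).2.2, fun N hN hN0 => ?_⟩
  refine ⟨g ⟨N, hN, hN0⟩, ?_⟩
  exact congrArg Subtype.val (Function.leftInverse_invFun g.injective ⟨N, hN, hN0⟩)

lemma exists_perms {S : Type} (hS : #S ≤ 𝔠) : ∃ pm : S → Equiv.Perm ℕ, Function.Injective pm := by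
  have h1 : #S ≤ #(Equiv.Perm ℕ) := by
    rw [mk_perm_eq_two_power, Cardinal.mk_nat, two_power_aleph0]; exact hS
  obtain ⟨g⟩ := Cardinal.le_def _ _ |>.1 h1
  exact ⟨g, g.injective⟩

lemma many_fibres {E : Type} [Group E] (hE : #E = 𝔠) {K : Set E} (hK : #K < 𝔠)
    (hsq : ∀ x : E, x * x ∈ K) (hfib : ∀ c : E, #{x : E | x * x = c} < 𝔠) {θ : Cardinal}
    (hθ : θ < 𝔠) : (𝔠 : Cardinal.{0}).ord.cof ≤ #{c : E | θ < #{x : E | x * x = c}} := by
  by_contra hcon
  rw [not_le] at hcon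
  set T : Set E := {c : E | θ < #{x : E | x * x = c}} with hT
  have h1 : #(⋃ c : T, {x : E | x * x = c.1}) < 𝔠 := by
    refine (mk_iUnion_le _).trans_lt (mul_lt_of_lt aleph0_le_continuum
      (hcon.trans_le (cof_ord_le _)) ?_)
    exact iSup_lt_of_lt_cof_ord hcon fun c => hfib c.1
  have h2 : #(⋃ c : (K \ T : Set E), {x : E | x * x = c.1}) < 𝔠 := by
    refine (mk_iUnion_le _).trans_lt (mul_lt_of_lt aleph0_le_continuum
      ((Cardinal.mk_le_mk_of_subset Set.sdiff_subset).trans_lt hK) ?_)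
    refine lt_of_le_of_lt (ciSup_le' fun c => ?_) hθ
    have := c.2.2
    simp only [hT, Set.mem_ofPred_eq, not_lt] at this
    exact this
  have h3 : (Set.univ : Set E) ⊆ (⋃ c : T, {x : E | x * x = c.1}) ∪
      ⋃ c : (K \ T : Set E), {x : E | x * x = c.1} := by
    intro x _
    by_cases hx : x * x ∈ T
    · exact Or.inl (Set.mem_iUnion.2 ⟨⟨x * x, hx⟩, rfl⟩)
    · exact Or.inr (Set.mem_iUnion.2 ⟨⟨x * x, hsq x, hx⟩, rfl⟩)
  have h4 := (Cardinal.mk_le_mk_of_subset h3).trans (mk_union_le _ _)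
  rw [mk_univ, hE] at h4
  exact absurd h4 (not_le.2 (add_lt_of_lt aleph0_le_continuum h1 h2))

end Pool.Agent.R361.AB
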