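import Mathlib

/-! Abstractly Borelian groups: definitions (MP_c06a36_lc). -/

universe u

open Cardinal MeasureTheory

namespace Pool.Agent.R361.AB

/-- The σ-algebra `𝓑(𝓐)` on `E` generated by the sequence of sets `A`. -/
@[instance_reducible]
def gen {E : Type u} (A : ℕ → Set E) : MeasurableSpace E :=
  MeasurableSpace.generateFrom (Set.range A)

/-- The sequence `A` is measurable: there is a countably additive probability measure on the
σ-algebra generated by `A` which vanishes on all singletons belonging to this σ-algebra. -/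
def MeasurableSeq {E : Type u} (A : ℕ → Set E) : Prop :=
  ∃ m : @Measure E (gen A), m Set.univ = 1 ∧ ∀ x : E, MeasurableSet[gen A] {x} → m {x} = 0

/-- `Z ⊆ E³` is Borelian with respect to `A`: it belongs to the σ-algebra generated by the
products of three members of `𝓑(𝓐)`. -/
def BorelianWrt {E : Type u} (A : ℕ → Set E) (Z : Set (E × E × E)) : Prop :=
  MeasurableSet[MeasurableSpace.generateFrom {S : Set (E × E × E) | ∃ B₁ B₂ B₃ : Set E,
    MeasurableSet[gen A] B₁ ∧ MeasurableSet[gen A] B₂ ∧ MeasurableSet[gen A] B₃ ∧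
    S = {p | p.1 ∈ B₁ ∧ p.2.1 ∈ B₂ ∧ p.2.2 ∈ B₃}}] Z

/-- The representation `{(x, y, z) : x y = z}` of a group. -/
def repr (E : Type u) [Group E] : Set (E × E × E) := {p | p.1 * p.2.1 = p.2.2}

/-- The group `E` is abstractly Borelian. -/
def AbstractlyBorelian (E : Type u) [Group E] : Prop :=
  ∃ A : ℕ → Set E, MeasurableSeq A ∧ BorelianWrt A (repr E)

end Pool.Agent.R361.AB
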