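import Mathlib
import Pool.Agent.R361.AB.Defs

/-! Countable generation (MP_c06a36_lc). -/

universe u

open Cardinal MeasureTheory

namespace Pool.Agent.R361.AB

lemma countable_gen {T : Type u} (C : Set (Set T)) (s : Set T)
    (hs : MeasurableSet[MeasurableSpace.generateFrom C] s) :
    ∃ C' ⊆ C, C'.Countable ∧ MeasurableSet[MeasurableSpace.generateFrom C'] s := by
  refine MeasurableSpace.generateFrom_induction C
    (fun s _ => ∃ C' ⊆ C, C'.Countable ∧ MeasurableSet[MeasurableSpace.generateFrom C'] s)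
    ?_ ?_ ?_ ?_ s hs
  · intro t ht _
    exact ⟨{t}, Set.singleton_subset_iff.2 ht, Set.countable_singleton t,
      MeasurableSpace.measurableSet_generateFrom (Set.mem_singleton t)⟩
  · exact ⟨∅, Set.empty_subset _, Set.countable_empty, @MeasurableSet.empty T (MeasurableSpace.generateFrom ∅)⟩
  · rintro t _ ⟨C', h1, h2, h3⟩
    exact ⟨C', h1, h2, h3.compl⟩
  · intro f _ h
    choose C' h1 h2 h3 using h
    refine ⟨⋃ n, C' n, Set.iUnion_subset h1, Set.countable_iUnion h2, ?_⟩
    have h4 : ∀ n, MeasurableSet[MeasurableSpace.generateFrom (⋃ n, C' n)] (f n) := fun n =>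
      MeasurableSpace.generateFrom_mono (Set.subset_iUnion C' n) _ (h3 n)
    exact @MeasurableSet.iUnion T ℕ (MeasurableSpace.generateFrom (⋃ n, C' n)) _ f h4

lemma borelianWrt_of {E : Type u} (m : MeasurableSpace E) (Z : Set (E × E × E))
    (hZ : MeasurableSet[@Prod.instMeasurableSpace E (E × E) m
      (@Prod.instMeasurableSpace E E m m)] Z) :
    ∃ A : ℕ → Set E, gen A ≤ m ∧ BorelianWrt A Z := by
  set C : Set (Set (E × E × E)) := {S | ∃ B₁ B₂ B₃ : Set E,
    MeasurableSet[m] B₁ ∧ MeasurableSet[m] B₂ ∧ MeasurableSet[m] B₃ ∧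
    S = {p | p.1 ∈ B₁ ∧ p.2.1 ∈ B₂ ∧ p.2.2 ∈ B₃}} with hC
  have h1 : MeasurableSet[MeasurableSpace.generateFrom C] Z := by
    have f1 : @Measurable (E × E × E) E (MeasurableSpace.generateFrom C) m (fun p => p.1) := by
      intro B hB
      apply MeasurableSpace.measurableSet_generateFrom
      refine ⟨B, Set.univ, Set.univ, hB, MeasurableSet.univ, MeasurableSet.univ, ?_⟩
      ext p; simp
    have f2 : @Measurable (E × E × E) E (MeasurableSpace.generateFrom C) m (fun p => p.2.1) := by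
      intro B hB
      apply MeasurableSpace.measurableSet_generateFrom
      refine ⟨Set.univ, B, Set.univ, MeasurableSet.univ, hB, MeasurableSet.univ, ?_⟩
      ext p; simp
    have f3 : @Measurable (E × E × E) E (MeasurableSpace.generateFrom C) m (fun p => p.2.2) := by
      intro B hB
      apply MeasurableSpace.measurableSet_generateFrom
      refine ⟨Set.univ, Set.univ, B, MeasurableSet.univ, MeasurableSet.univ, hB, ?_⟩
      ext p; simp
    have f23 := Measurable.prodMk f2 f3
    have f := Measurable.prodMk f1 f23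
    exact f hZ
  obtain ⟨C', hC', hcount, hZ'⟩ := countable_gen C Z h1
  have hC'' : ∀ S : Set (E × E × E), S ∈ C' → ∃ B₁ B₂ B₃ : Set E,
    MeasurableSet[m] B₁ ∧ MeasurableSet[m] B₂ ∧ MeasurableSet[m] B₃ ∧
    S = {p | p.1 ∈ B₁ ∧ p.2.1 ∈ B₂ ∧ p.2.2 ∈ B₃} := fun S hS => hC' hS
  choose! B₁ B₂ B₃ b1 b2 b3 hb using hC''
  set D : Set (Set E) := {∅} ∪ (B₁ '' C' ∪ (B₂ '' C' ∪ B₃ '' C')) with hD
  have hDc : D.Countable := (Set.countable_singleton _).union ((hcount.image _).union
    ((hcount.image _).union (hcount.image _)))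
  have hDm : ∀ S ∈ D, MeasurableSet[m] S := by
    rintro S (h | ⟨c, hc, rfl⟩ | ⟨c, hc, rfl⟩ | ⟨c, hc, rfl⟩)
    · rw [Set.mem_singleton_iff] at h; rw [h]; exact MeasurableSet.empty
    · exact b1 c hc
    · exact b2 c hc
    · exact b3 c hc
  obtain ⟨A, hA⟩ := hDc.exists_eq_range ⟨∅, Or.inl rfl⟩
  have hgen : gen A = MeasurableSpace.generateFrom D := by unfold gen; rw [← hA]
  refine ⟨A, ?_, ?_⟩
  · rw [hgen]
    exact MeasurableSpace.generateFrom_le hDm
  · unfold BorelianWrt
    refine (MeasurableSpace.generateFrom_mono ?_) _ hZ'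
    intro S hS
    refine ⟨B₁ S, B₂ S, B₃ S, ?_, ?_, ?_, hb S hS⟩
    · rw [hgen]; exact MeasurableSpace.measurableSet_generateFrom (Or.inr (Or.inl ⟨S, hS, rfl⟩))
    · rw [hgen]
      exact MeasurableSpace.measurableSet_generateFrom (Or.inr (Or.inr (Or.inl ⟨S, hS, rfl⟩)))
    · rw [hgen]
      exact MeasurableSpace.measurableSet_generateFrom (Or.inr (Or.inr (Or.inr ⟨S, hS, rfl⟩)))

end Pool.Agent.R361.AB
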