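import Mathlib
import Pool.Agent.R361.AB.T3
import Pool.Agent.R361.AB.Gen

/-! Families of independent elements and the measure (MP_c06a36_lc). -/

universe u

open Cardinal Ordinal MeasureTheory

namespace Pool.Agent.R361.AB

variable {E : Type u} [Group E]

/-- Recursive choice of a sequence of length `ν` of elements, each outside the subgroup generated
by the previous ones. -/
lemma exists_seq (ν : Cardinal.{u}) (hν : ℵ₀ < ν) (Good : Subgroup E → E → Prop)
    (h : ∀ C : Subgroup E, #C < ν → ∃ x, x ∉ C ∧ Good C x) :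
    ∃ x : ν.ord.ToType → E, ∀ i, x i ∉ Subgroup.closure (x '' Set.Iio i) ∧
      Good (Subgroup.closure (x '' Set.Iio i)) (x i) := by
  classical
  have h' : ∀ C : Subgroup E, ∃ x, #C < ν → x ∉ C ∧ Good C x := by
    intro C
    by_cases hC : #C < ν
    · obtain ⟨x, hx⟩ := h C hC
      exact ⟨x, fun _ => hx⟩
    · exact ⟨1, fun h => absurd h hC⟩
  choose g hg using h'
  let step : ∀ i : ν.ord.ToType, (∀ j, j < i → E) → E := fun i f =>
    g (Subgroup.closure (Set.range fun j : {j // j < i} => f j.1 j.2))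
  let x : ν.ord.ToType → E := (wellFounded_lt (α := ν.ord.ToType)).fix step
  have hx : ∀ i, x i = g (Subgroup.closure (x '' Set.Iio i)) := by
    intro i
    have e1 : x i = step i (fun j _ => x j) := WellFounded.fix_eq _ _ _
    rw [e1]
    simp only [step]
    congr 2
    ext y
    simp only [Set.mem_range, Subtype.exists, Set.mem_image, Set.mem_Iio]
    constructor
    · rintro ⟨j, hj, rfl⟩
      exact ⟨j, hj, rfl⟩
    · rintro ⟨j, hj, rfl⟩
      exact ⟨j, hj, rfl⟩
  refine ⟨x, fun i => ?_⟩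
  have hsmall : #(Subgroup.closure (x '' Set.Iio i)) < ν := by
    refine (mk_closure_le _).trans_lt (max_lt ?_ hν)
    refine Cardinal.mk_image_le.trans_lt ?_
    simpa using mk_Iio_lt i
  have := hg _ hsmall
  rw [← hx i] at this
  exact this

/-- The rank function adapted to such a sequence. -/
lemma exists_rank_seq (ν : Cardinal.{u}) (hν : ℵ₀ < ν) (x : ν.ord.ToType → E)
    (hx : ∀ i, x i ∉ Subgroup.closure (x '' Set.Iio i)) :
    ∃ rk : E → Ordinal.{u}, IsRank (⊤ : Subgroup E) rk ∧
      (∀ i, ∀ y ∈ Subgroup.closure (x '' Set.Iic i), y ∉ Subgroup.closure (x '' Set.Iio i) →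
        rk y = (ToType.toOrd i).1 + 1) := by
  obtain ⟨e⟩ : Nonempty (E ≃ (#E).ord.ToType) := Cardinal.eq.1 (by simp)
  set G : Ordinal.{u} → Set E := fun α => {y | (∃ i, (ToType.toOrd i).1 < α ∧ y = x i) ∨
    (ν.ord + (ToType.toOrd (e y)).1 < α)} with hG
  obtain ⟨rk, hrk, key⟩ := rank_of_family (⊤ : Subgroup E) G
    (by
      rintro α β hαβ y (⟨i, h1, h2⟩ | h1)
      · exact Or.inl ⟨i, h1.trans_le hαβ, h2⟩
      · exact Or.inr (h1.trans_le hαβ))
    (by
      ext y
      simp only [hG, Set.mem_ofPred_eq, Set.mem_empty_iff_false, iff_false, not_or, not_exists,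
        not_and]
      exact ⟨fun i h => absurd h not_lt_zero, not_lt_zero⟩)
    (fun y _ => ⟨ν.ord + (ToType.toOrd (e y)).1 + 1,
      Subgroup.subset_closure (Or.inr (lt_add_one _))⟩)
  refine ⟨rk, hrk, fun i y hy hyn => ?_⟩
  have hlim : Order.IsSuccLimit ν.ord := Cardinal.isSuccLimit_ord hν.le
  have hilt : (ToType.toOrd i).1 < ν.ord := (ToType.toOrd i).2
  have hilt' : (ToType.toOrd i).1 + 1 < ν.ord := by
    have := hlim.succ_lt hilt
    rwa [Order.succ_eq_add_one] at this
  have hord : ∀ j : ν.ord.ToType, (ToType.toOrd j).1 < (ToType.toOrd i).1 ↔ j < i := by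
    intro j
    exact (Subtype.coe_lt_coe.trans ToType.mk.symm.lt_iff_lt)
  have hG1 : G (ToType.toOrd i).1 = x '' Set.Iio i := by
    ext z
    simp only [hG, Set.mem_ofPred_eq, Set.mem_image, Set.mem_Iio]
    constructor
    · rintro (⟨j, h1, h2⟩ | h1)
      · exact ⟨j, (hord j).1 h1, h2.symm⟩
      · exact absurd (hilt.trans_le (le_self_add)) (not_lt.2 h1.le)
    · rintro ⟨j, h1, h2⟩
      exact Or.inl ⟨j, (hord j).2 h1, h2.symm⟩
  have hG2 : G ((ToType.toOrd i).1 + 1) = x '' Set.Iic i := by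
    ext z
    simp only [hG, Set.mem_ofPred_eq, Set.mem_image, Set.mem_Iic]
    constructor
    · rintro (⟨j, h1, h2⟩ | h1)
      · refine ⟨j, ?_, h2.symm⟩
        rw [← not_lt]
        intro hij
        have h3 : (ToType.toOrd i).1 < (ToType.toOrd j).1 :=
          (Subtype.coe_lt_coe.trans ToType.mk.symm.lt_iff_lt).2 hij
        exact absurd h1 (not_lt.2 (Order.add_one_le_of_lt h3))
      · exact absurd (hilt'.trans_le (le_self_add)) (not_lt.2 h1.le)
    · rintro ⟨j, h1, h2⟩
      refine Or.inl ⟨j, ?_, h2.symm⟩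
      have h3 : (ToType.toOrd j).1 ≤ (ToType.toOrd i).1 :=
        Subtype.coe_le_coe.2 (ToType.mk.symm.le_iff_le.2 h1)
      exact h3.trans_lt (lt_add_one _)
  apply le_antisymm
  · rw [key y trivial, hG2]; exact hy
  · apply Order.add_one_le_of_lt
    rw [← not_le, key y trivial, hG1]
    exact hyn

end Pool.Agent.R361.AB
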