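import Mathlib
import Pool.Agent.R361.AB.Fam

/-! Main theorems (MP_c06a36_lc). -/

universe u

open Cardinal Ordinal MeasureTheory
open scoped ENNReal

namespace Pool.Agent.R361.AB

variable {E : Type u} [Group E]

omit [Group E] in
lemma SF_image {F : Set E} {r : E → ℝ} {s : Set E} (hs : MeasurableSet[SF F r] s) :
    ∃ B : Set ℝ, MeasurableSet B ∧ (∀ x ∈ F, r x ∈ B ↔ x ∈ s) ∧ r '' (s ∩ F) = B ∩ r '' F := by
  obtain ⟨B, hB, h⟩ := hs
  have h2 : ∀ x ∈ F, r x ∈ B ↔ x ∈ s := by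
    intro x hx
    have := Set.ext_iff.1 h ⟨x, hx⟩
    exact this
  refine ⟨B, hB, h2, ?_⟩
  ext y
  constructor
  · rintro ⟨x, ⟨hx1, hx2⟩, rfl⟩
    exact ⟨(h2 x hx2).2 hx1, x, hx2, rfl⟩
  · rintro ⟨h3, x, hx, rfl⟩
    exact ⟨x, ⟨(h2 x hx).1 h3, hx⟩, rfl⟩

lemma exists_measure (F : Set E) (r : E → ℝ) (h0 : volume (r '' F) ≠ 0)
    (h1 : volume (r '' F) ≠ ∞) :
    ∃ m : @Measure E (SF F r), m Set.univ = 1 ∧ ∀ x : E, MeasurableSet[SF F r] {x} → m {x} = 0 := by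
  let _ : MeasurableSpace E := SF F r
  let m0 : Measure E := Measure.ofMeasurable (fun s _ => volume (r '' (s ∩ F)))
    (by simp)
    (by
      intro f hf hd
      choose B hB hB2 hB3 using fun i => SF_image (hf i)
      have e1 : r '' ((⋃ i, f i) ∩ F) = (⋃ i, B i) ∩ r '' F := by
        ext y
        constructor
        · rintro ⟨x, ⟨hx1, hx2⟩, rfl⟩
          obtain ⟨i, hi⟩ := Set.mem_iUnion.1 hx1
          exact ⟨Set.mem_iUnion.2 ⟨i, (hB2 i x hx2).2 hi⟩, x, hx2, rfl⟩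
        · rintro ⟨h3, x, hx, rfl⟩
          obtain ⟨i, hi⟩ := Set.mem_iUnion.1 h3
          exact ⟨x, ⟨Set.mem_iUnion.2 ⟨i, (hB2 i x hx).1 hi⟩, hx⟩, rfl⟩
      simp only [hB3]
      rw [e1, ← Measure.restrict_apply (MeasurableSet.iUnion hB)]
      rw [measure_iUnion₀ _ (fun i => (hB i).nullMeasurableSet)]
      · apply tsum_congr
        intro i
        rw [Measure.restrict_apply (hB i)]
      · intro i j hij
        change (volume.restrict (r '' F)) (B i ∩ B j) = 0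
        rw [Measure.restrict_apply ((hB i).inter (hB j))]
        have : B i ∩ B j ∩ r '' F = ∅ := by
          rw [Set.eq_empty_iff_forall_notMem]
          rintro _ ⟨⟨h3, h4⟩, x, hx, rfl⟩
          have h5 := (hB2 i x hx).1 h3
          have h6 := (hB2 j x hx).1 h4
          exact Set.disjoint_left.1 (hd hij) h5 h6
        rw [this, measure_empty])
  have hm0 : ∀ s, MeasurableSet s → m0 s = volume (r '' (s ∩ F)) := fun s hs =>
    Measure.ofMeasurable_apply s hs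
  refine ⟨(volume (r '' F))⁻¹ • m0, ?_, ?_⟩
  · rw [Measure.smul_apply, hm0 _ MeasurableSet.univ, Set.univ_inter, _root_.smul_eq_mul]
    exact ENNReal.inv_mul_cancel h0 h1
  · intro x hx
    rw [Measure.smul_apply, hm0 _ hx, _root_.smul_eq_mul]
    have : volume (r '' ({x} ∩ F)) = 0 := by
      refine measure_mono_null (t := {r x}) ?_ (by simp)
      rintro _ ⟨y, ⟨hy, -⟩, rfl⟩
      rw [Set.mem_singleton_iff] at hy
      rw [hy]; rfl
    rw [this, mul_zero]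

lemma ab_of (hE : #E ≤ 𝔠) (Y : Set ℝ) (hY0 : volume Y ≠ 0) (hY1 : volume Y ≠ ∞)
    (hcase : (∀ C : Subgroup E, #C < lift.{u} #Y → ∃ x, x ∉ C ∧ x * x ∉ C) ∨
      ∃ c, ∃ S : Set E, lift.{u} #Y ≤ #S ∧ ∀ x ∈ S, x * x = c ∧ x ≠ c) :
    AbstractlyBorelian E := by
  classical
  set ν : Cardinal.{u} := lift.{u} #Y with hνdef
  have hν : ℵ₀ < ν := by
    rw [hνdef, ← lift_aleph0.{u, 0}, Cardinal.lift_lt, ← not_le]
    intro h
    exact hY0 ((Set.countable_coe_iff.1 (mk_le_aleph0_iff.1 h)).measure_zero _)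
  have hseq : ∃ x : ν.ord.ToType → E, (∀ i, x i ∉ Subgroup.closure (x '' Set.Iio i)) ∧
      ((∀ i, x i * x i ∉ Subgroup.closure (x '' Set.Iio i)) ∨
        ∃ c, ∀ i, x i * x i = c ∧ x i ≠ c) := by
    rcases hcase with h | ⟨c, S, hS, h⟩
    · obtain ⟨x, hx⟩ := exists_seq ν hν (fun C x => x * x ∉ C) h
      exact ⟨x, fun i => (hx i).1, Or.inl fun i => (hx i).2⟩
    · obtain ⟨x, hx⟩ := exists_seq ν hν (fun _ x => x * x = c ∧ x ≠ c) (by
        intro C hC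
        by_contra hcon
        push Not at hcon
        have hsub : S ⊆ (C : Set E) := by
          intro y hy
          by_contra hyC
          exact (h y hy).2 (hcon y hyC (h y hy).1)
        have := Cardinal.mk_le_mk_of_subset hsub
        exact absurd (hS.trans this) (not_le.2 hC))
      exact ⟨x, fun i => (hx i).1, Or.inr ⟨c, fun i => (hx i).2⟩⟩
  obtain ⟨x, hx, hx2⟩ := hseq
  obtain ⟨rk, hrk, hrkx⟩ := exists_rank_seq ν hν x hx
  have hmem : ∀ i, x i ∈ Subgroup.closure (x '' Set.Iic i) := fun i =>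
    Subgroup.subset_closure ⟨i, Set.mem_Iic.2 le_rfl, rfl⟩
  have hrkxi : ∀ i, rk (x i) = (ToType.toOrd i).1 + 1 := fun i => hrkx i _ (hmem i) (hx i)
  have hinj : ∀ i j, rk (x i) = rk (x j) → i = j := by
    intro i j h
    rw [hrkxi i, hrkxi j, ← Order.succ_eq_add_one, ← Order.succ_eq_add_one] at h
    exact ToType.mk.symm.injective (Subtype.ext (Order.succ_injective h))
  set F : Set E := Set.range x with hFdef
  have hF : ∀ y ∈ F, ∀ z ∈ F, rk y = rk z → y = z := by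
    rintro _ ⟨i, rfl⟩ _ ⟨j, rfl⟩ h
    rw [hinj i j h]
  have h1F : (1 : E) ∉ F := by
    rintro ⟨i, hi⟩
    apply hx i
    rw [hi]; exact Subgroup.one_mem _
  have hsq : (∀ y ∈ F, rk (y * y) = rk y) ∨ ∃ c, c ∉ F ∧ ∀ y ∈ F, y * y = c := by
    rcases hx2 with h | ⟨c, h⟩
    · left
      rintro _ ⟨i, rfl⟩
      rw [hrkxi i]
      exact hrkx i _ (Subgroup.mul_mem _ (hmem i) (hmem i)) (h i)
    · right
      refine ⟨c, ?_, ?_⟩
      · rintro ⟨i, hi⟩
        exact (h i).2 hi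
      · rintro _ ⟨i, rfl⟩
        exact (h i).1
  have hcard : #F = ν := by
    have hi : Function.Injective x := fun i j h => hinj i j (congrArg rk h)
    rw [hFdef, Cardinal.mk_range_eq x hi]; simp
  obtain ⟨φ⟩ : Nonempty (F ≃ Y) := by
    rw [← Cardinal.lift_mk_eq', hcard, hνdef]
    simp
  set r : E → ℝ := fun y => if h : y ∈ F then (φ ⟨y, h⟩ : ℝ) else 0 with hr
  have hry : ∀ y (h : y ∈ F), r y = φ ⟨y, h⟩ := fun y h => by simp only [hr]; rw [dif_pos h]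
  have hrF : Set.InjOn r F := by
    intro y hy z hz h
    rw [hry y hy, hry z hz] at h
    exact congrArg Subtype.val (φ.injective (Subtype.ext h))
  have himg : r '' F = Y := by
    ext t
    constructor
    · rintro ⟨y, hy, rfl⟩
      rw [hry y hy]; exact (φ ⟨y, hy⟩).2
    · intro ht
      refine ⟨(φ.symm ⟨t, ht⟩).1, (φ.symm ⟨t, ht⟩).2, ?_⟩
      rw [hry _ (φ.symm ⟨t, ht⟩).2]
      simp
  obtain ⟨m, hm1, hm2⟩ := exists_measure F r (by rw [himg]; exact hY0) (by rw [himg]; exact hY1)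
  obtain ⟨A, hA1, hA2⟩ := borelianWrt_of (SF F r) _ (table_SF hE hrk hF h1F hrF hsq)
  refine ⟨A, ⟨@Measure.trim E (gen A) (SF F r) m hA1, ?_, ?_⟩, hA2⟩
  · rw [trim_measurableSet_eq hA1 MeasurableSet.univ]
    exact hm1
  · intro y hy
    rw [trim_measurableSet_eq hA1 hy]
    exact hm2 y (hA1 _ hy)

lemma ab_gen (hE : #E = 𝔠) (Y : Set ℝ) (hY0 : volume Y ≠ 0) (hY1 : volume Y ≠ ∞)
    (hθ : ∀ K : Subgroup E, #K < lift.{u} #Y → (∀ x, x ∉ K → x * x ∈ K) →
      ∃ θ : Cardinal.{u}, lift.{u} #Y ≤ θ ∧ θ ≤ 𝔠 ∧ ℵ₀ ≤ θ ∧ #K < θ.ord.cof) :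
    AbstractlyBorelian E := by
  apply ab_of hE.le Y hY0 hY1
  by_cases h : ∀ C : Subgroup E, #C < lift.{u} #Y → ∃ x, x ∉ C ∧ x * x ∉ C
  · exact Or.inl h
  · right
    push Not at h
    obtain ⟨K, hK, hsq⟩ := h
    obtain ⟨θ, h1, h2, h3, h4⟩ := hθ K hK hsq
    have hYc : lift.{u} #Y ≤ 𝔠 := h1.trans h2
    have hinf : Infinite E := by
      rw [Cardinal.infinite_iff, hE]; exact aleph0_le_continuum
    have hcompl : #((K : Set E)ᶜ : Set E) = #E := by
      apply Cardinal.mk_compl_of_infinite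
      have : #(K : Set E) = #K := rfl
      rw [this, hE]
      exact hK.trans_le hYc
    let f : ((K : Set E)ᶜ : Set E) → K := fun y => ⟨y.1 * y.1, hsq y.1 y.2⟩
    obtain ⟨a, ha⟩ := infinite_pigeonhole_card f θ (by rw [hcompl, hE]; exact h2) h3 h4
    refine ⟨a.1, Subtype.val '' (f ⁻¹' {a}), ?_, ?_⟩
    · rw [Cardinal.mk_image_eq Subtype.val_injective]
      exact h1.trans ha
    · rintro _ ⟨y, hy, rfl⟩
      refine ⟨congrArg Subtype.val hy, ?_⟩
      intro hya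
      have : y.1 ∈ K := by rw [hya]; exact a.2
      exact y.2 this

theorem borel_all (hE : #E ≤ 𝔠) : ∃ A : ℕ → Set E, BorelianWrt A (repr E) := by
  obtain ⟨A, -, hA⟩ := borelianWrt_of (⊤ : MeasurableSpace E) _ (table_measurable hE)
  exact ⟨A, hA⟩

lemma vol_Icc : volume (Set.Icc (0 : ℝ) 1) ≠ 0 ∧ volume (Set.Icc (0 : ℝ) 1) ≠ ∞ := by
  rw [Real.volume_Icc]; simp

lemma card_Icc : lift.{u} #(Set.Icc (0 : ℝ) 1) = 𝔠 := by
  rw [Cardinal.mk_Icc_real (by norm_num : (0 : ℝ) < 1), lift_continuum]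

theorem ab_regular (hreg : (𝔠 : Cardinal.{u}).IsRegular) (hE : #E = 𝔠) : AbstractlyBorelian E := by
  refine ab_gen hE (Set.Icc 0 1) vol_Icc.1 vol_Icc.2 fun K hK _ => ?_
  rw [card_Icc] at hK ⊢
  exact ⟨𝔠, le_rfl, le_rfl, aleph0_le_continuum, by rw [hreg.cof_ord]; exact hK⟩

theorem ab_cof (hE : #E = 𝔠) (h : ∀ K : Subgroup E, (𝔠 : Cardinal.{u}).ord.cof ≤ #K → #K < 𝔠 →
    ∃ x, x ∉ K ∧ x * x ∉ K) : AbstractlyBorelian E := by
  refine ab_gen hE (Set.Icc 0 1) vol_Icc.1 vol_Icc.2 fun K hK hsq => ?_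
  rw [card_Icc] at hK ⊢
  refine ⟨𝔠, le_rfl, le_rfl, aleph0_le_continuum, ?_⟩
  rw [← not_le]
  intro hle
  obtain ⟨x, hx1, hx2⟩ := h K hle hK
  exact hx2 (hsq x hx1)

theorem ab_nonnull {Y : Set ℝ} (hY : #Y < 𝔠) (hY0 : volume Y ≠ 0) (hE : #E = 𝔠) :
    AbstractlyBorelian E := by
  have hn : ∃ n : ℤ, volume (Y ∩ Set.Icc (n : ℝ) (n + 1)) ≠ 0 := by
    by_contra h
    push Not at h
    apply hY0
    have h2 : Y ⊆ ⋃ n : ℤ, Y ∩ Set.Icc (n : ℝ) (n + 1) := by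
      intro y hy
      exact Set.mem_iUnion.2 ⟨⌊y⌋, hy, Int.floor_le y, (Int.lt_floor_add_one y).le⟩
    exact measure_mono_null h2 (measure_iUnion_null h)
  obtain ⟨n, hn⟩ := hn
  set Z := Y ∩ Set.Icc (n : ℝ) (n + 1) with hZ
  have hZtop : volume Z ≠ ∞ := by
    refine ((measure_mono Set.inter_subset_right).trans_lt ?_).ne
    rw [Real.volume_Icc]; exact ENNReal.ofReal_lt_top
  have hZc : #Z < 𝔠 := (Cardinal.mk_le_mk_of_subset Set.inter_subset_left).trans_lt hY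
  have hZinf : ℵ₀ ≤ lift.{u} #Z := by
    rw [← lift_aleph0.{u, 0}, Cardinal.lift_le]
    by_contra h
    rw [not_le] at h
    exact hn ((Set.countable_coe_iff.1 (mk_le_aleph0_iff.1 h.le)).measure_zero _)
  refine ab_gen hE Z hn hZtop fun K hK _ => ?_
  refine ⟨Order.succ (lift.{u} #Z), Order.le_succ _, ?_, hZinf.trans (Order.le_succ _), ?_⟩
  · rw [Order.succ_le_iff, ← lift_continuum.{u, 0}, Cardinal.lift_lt]
    exact hZc
  · rw [(isRegular_succ hZinf).cof_ord]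
    exact hK.trans (Order.lt_succ _)

end Pool.Agent.R361.AB
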