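import Mathlib
import Pool.Agent.R361.AB.Main
import Pool.Agent.R361.AB.AC2
import Pool.Agent.R361.AB.AC4
import Pool.Agent.R361.AB.AC5

/-! The remaining case: few square roots (MP_c06a36_lc). -/

open Cardinal Ordinal MeasureTheory
open scoped ENNReal

namespace Pool.Agent.R361.AB

lemma exists_measure_gen {E : Type} [Group E] (ν : Measure ℝ) (hν : ∀ t, ν {t} = 0)
    (F : Set E) (r : E → ℝ) (h0 : ν (r '' F) ≠ 0) (h1 : ν (r '' F) ≠ ∞) :
    ∃ m : @Measure E (SF F r), m Set.univ = 1 ∧ ∀ x : E, MeasurableSet[SF F r] {x} → m {x} = 0 := by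
  let _ : MeasurableSpace E := SF F r
  let m0 : Measure E := Measure.ofMeasurable (fun s _ => ν (r '' (s ∩ F)))
    (by simp)
    (by
      intro f hf hd
      choose B hB hB2 hB3 using fun i => SF_image (hf i)
      have e1 : r '' ((⋃ i, f i) ∩ F) = (⋃ i, B i) ∩ r '' F := by
        ext y
        constructor
        · rintro ⟨x, ⟨hx1, hx2⟩, rfl⟩
          obtain ⟨i, hi⟩ := Set.mem_iUnion.1 hx1
          exact ⟨Set.mem_iUnion.2 ⟨i, (hB2 i x hx2).2 hi⟩, x, hx2, rfl⟩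
        · rintro ⟨h3, x, hx, rfl⟩
          obtain ⟨i, hi⟩ := Set.mem_iUnion.1 h3
          exact ⟨x, ⟨Set.mem_iUnion.2 ⟨i, (hB2 i x hx).1 hi⟩, hx⟩, rfl⟩
      simp only [hB3]
      rw [e1, ← Measure.restrict_apply (MeasurableSet.iUnion hB)]
      rw [measure_iUnion₀ _ (fun i => (hB i).nullMeasurableSet)]
      · apply tsum_congr
        intro i
        rw [Measure.restrict_apply (hB i)]
      · intro i j hij
        change (ν.restrict (r '' F)) (B i ∩ B j) = 0
        rw [Measure.restrict_apply ((hB i).inter (hB j))]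
        have : B i ∩ B j ∩ r '' F = ∅ := by
          rw [Set.eq_empty_iff_forall_notMem]
          rintro _ ⟨⟨h3, h4⟩, x, hx, rfl⟩
          have h5 := (hB2 i x hx).1 h3
          have h6 := (hB2 j x hx).1 h4
          exact Set.disjoint_left.1 (hd hij) h5 h6
        rw [this, measure_empty])
  have hm0 : ∀ s, MeasurableSet s → m0 s = ν (r '' (s ∩ F)) := fun s hs =>
    Measure.ofMeasurable_apply s hs
  refine ⟨(ν (r '' F))⁻¹ • m0, ?_, ?_⟩
  · rw [Measure.smul_apply, hm0 _ MeasurableSet.univ, Set.univ_inter, _root_.smul_eq_mul]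
    exact ENNReal.inv_mul_cancel h0 h1
  · intro x hx
    rw [Measure.smul_apply, hm0 _ hx, _root_.smul_eq_mul]
    have : ν (r '' ({x} ∩ F)) = 0 := by
      refine measure_mono_null (t := {r x}) ?_ (hν _)
      rintro _ ⟨y, ⟨hy, -⟩, rfl⟩
      rw [Set.mem_singleton_iff] at hy
      rw [hy]; rfl
    rw [this, mul_zero]

lemma card_Iio_lt (ξ : (𝔠 : Cardinal.{0}).ord.ToType) : #(Set.Iio ξ) < 𝔠 := by
  simpa using mk_Iio_lt ξ

theorem ab_few {E : Type} [Group E] (hE : #E = 𝔠) (hnon : ∀ Y : Set ℝ, #Y < 𝔠 → volume Y = 0)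
    (K : Subgroup E) (hK : #K < 𝔠) (hsq : ∀ x : E, x * x ∈ K)
    (hfib : ∀ c : E, #{x : E | x * x = c} < 𝔠) : AbstractlyBorelian E := by
  classical
  obtain ⟨S, hS1, hS2⟩ := exists_cofinal
  obtain ⟨I, _, _, O, hI, hO, hCm, hCn, hCu⟩ := exists_family S hS2 hnon
  set C : I → Set ℝ := fun i => ⋂ m, O i m with hC
  have hbd : ∀ D : Set I, D.Countable → ∃ j, ∀ d ∈ D, d < j := by
    intro D hD
    by_contra hcon
    push Not at hcon
    apply hCu
    have h1 : volume (⋃ d ∈ D, C d) = 0 := (measure_biUnion_null_iff hD).2 fun d _ => hCn d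
    refine measure_mono_null ?_ h1
    intro t ht
    obtain ⟨j, hj⟩ := Set.mem_iUnion.1 ht
    obtain ⟨d, hd, hjd⟩ := hcon j
    exact Set.mem_iUnion₂.2 ⟨d, hd, hCm hjd hj⟩
  have hIne : Nonempty I := by
    obtain ⟨j, -⟩ := hbd ∅ Set.countable_empty
    exact ⟨j⟩
  obtain ⟨μ, hμ1, hμ2, hμ3⟩ := exists_mu (⋃ i, C i) hCu
  have hmeet : ∀ i, ∀ B : Set ℝ, MeasurableSet B → μ B ≠ 0 →
      ∃ x ∈ B, x ∈ {x | x ∉ C i ∧ ∃ r, x ∈ C r} := by
    intro i B hB hB0
    by_contra hcon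
    push Not at hcon
    apply hμ3 B hB hB0
    refine measure_mono_null ?_ (hCn i)
    rintro x ⟨hx1, hx2⟩
    by_contra hx3
    exact hcon x hx2 ⟨hx3, Set.mem_iUnion.1 hx1⟩
  let L : I → ℕ → I := fun j => if h : ∃ ℓ, IsLad j ℓ then h.choose else fun _ => j
  have hL : ∀ j, (∃ ℓ, IsLad j ℓ) → IsLad j (L j) := by
    intro j h
    simp only [L]
    rw [dif_pos h]
    exact h.choose_spec
  have hSc : #S ≤ 𝔠 := by rw [hS1]; exact cof_ord_le _
  have hSinf : ℵ₀ ≤ #S := by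
    rw [hS1, aleph0_le_cof]
    exact Cardinal.isSuccLimit_ord aleph0_le_continuum
  obtain ⟨pm, hpm⟩ := exists_perms hSc
  have hnn := fun s : S => nonnull_perm hCm μ hmeet hbd L hL (pm s)
  -- index type
  let J := {p : I × S // IsLad p.1 (L p.1)}
  have hJ : #J ≤ #S := by
    refine (Cardinal.mk_subtype_le _).trans ?_
    rw [Cardinal.mk_prod, Cardinal.lift_id, Cardinal.lift_id]
    exact (mul_le_mul' hI le_rfl).trans (mul_eq_self hSinf).le
  obtain ⟨k, hk1, hk2⟩ := exists_sdr #S hJ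
    (fun p : J => {c : E | #(Set.Iio p.1.2.1) < #{x : E | x * x = c}}) (by
      intro p
      rw [hS1]
      exact many_fibres hE (K := (K : Set E)) hK hsq hfib (card_Iio_lt _))
  obtain ⟨M, hM1, hM2⟩ := exists_enum (rho μ)
  -- the level used at stage `ξ`
  have hlev : ∀ ξ : (𝔠 : Cardinal.{0}).ord.ToType, ∃ s : S,
      max (#K + #(Set.Iio ξ)) ℵ₀ < 𝔠 ∧ max (#K + #(Set.Iio ξ)) ℵ₀ ≤ #(Set.Iio s.1) := by
    intro ξ
    have h1 : max (#K + #(Set.Iio ξ)) ℵ₀ < 𝔠 :=
      max_lt (add_lt_of_lt aleph0_le_continuum hK (card_Iio_lt ξ)) aleph0_lt_continuum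
    obtain ⟨s, hs⟩ := exists_Iio h1 S hS2
    exact ⟨s, h1, hs⟩
  choose s hs1 hs2 using hlev
  -- the points
  obtain ⟨w, hw⟩ := rec_choice (ι := (𝔠 : Cardinal.{0}).ord.ToType) (T := ℕ → ℝ)
    (fun ξ A y => y ∉ A ∧ y ∉ M ξ ∧ ∃ j, IsLad j (L j) ∧ y ∈ PP C (L j) (pm (s ξ))) (by
      intro ξ x
      by_contra hcon
      push Not at hcon
      have h1 : rho μ (x '' Set.Iio ξ) = 0 := by
        apply rho_small
        apply hμ2
        apply hnon
        exact (Cardinal.mk_image_le.trans Cardinal.mk_image_le).trans_lt (card_Iio_lt ξ)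
      have h2 : rho μ (x '' Set.Iio ξ ∪ M ξ) = 0 := measure_union_null h1 (hM1 ξ)
      apply hnn (s ξ)
      refine measure_mono_null ?_ h2
      intro y hy
      obtain ⟨j, hj, hy⟩ := Set.mem_iUnion₂.1 hy
      by_contra hyn
      rw [Set.mem_union, not_or] at hyn
      exact hcon y hyn.1 hyn.2 j hj hy) (fun _ => 0)
  choose hwA hwM jj hjj hwP using hw
  let ix : (𝔠 : Cardinal.{0}).ord.ToType → J := fun ξ => ⟨(jj ξ, s ξ), hjj ξ⟩
  obtain ⟨x, hx⟩ := rec_choice (ι := (𝔠 : Cardinal.{0}).ord.ToType) (T := E)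
    (fun ξ A y => y ∉ Subgroup.closure ((K : Set E) ∪ A) ∧ y * y = k (ix ξ)) (by
      intro ξ x
      by_contra hcon
      push Not at hcon
      have h1 : {y : E | y * y = k (ix ξ)} ⊆
          (Subgroup.closure ((K : Set E) ∪ x '' Set.Iio ξ) : Set E) := by
        intro y hy
        by_contra hyn
        exact hcon y hyn hy
      have h2 := Cardinal.mk_le_mk_of_subset h1
      have h3 : #(Subgroup.closure ((K : Set E) ∪ x '' Set.Iio ξ) : Set E) ≤
          max (#K + #(Set.Iio ξ)) ℵ₀ := by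
        refine (mk_closure_le _).trans (max_le_max ?_ le_rfl)
        exact (mk_union_le _ _).trans (add_le_add le_rfl Cardinal.mk_image_le)
      have h4 := hk2 (ix ξ)
      simp only [Set.mem_ofPred_eq] at h4
      exact absurd (h2.trans (h3.trans (hs2 ξ))) (not_le.2 h4)) 1
  have hxK : ∀ ξ, x ξ ∉ K := by
    intro ξ h
    exact (hx ξ).1 (Subgroup.subset_closure (Or.inl h))
  have hxc : ∀ ξ, x ξ ∉ Subgroup.closure (x '' Set.Iio ξ) := by
    intro ξ h
    exact (hx ξ).1 (Subgroup.closure_mono Set.subset_union_right h)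
  obtain ⟨rk, hrk, hrkx⟩ := exists_rank_seq 𝔠 aleph0_lt_continuum x hxc
  have hmem : ∀ i, x i ∈ Subgroup.closure (x '' Set.Iic i) := fun i =>
    Subgroup.subset_closure ⟨i, Set.mem_Iic.2 le_rfl, rfl⟩
  have hrkxi : ∀ i, rk (x i) = (ToType.toOrd i).1 + 1 := fun i => hrkx i _ (hmem i) (hxc i)
  have hinj' : ∀ i j, rk (x i) = rk (x j) → i = j := by
    intro i j h
    rw [hrkxi i, hrkxi j, ← Order.succ_eq_add_one, ← Order.succ_eq_add_one] at h
    exact ToType.mk.symm.injective (Subtype.ext (Order.succ_injective h))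
  have hinj : Function.Injective x := fun i j h => hinj' i j (congrArg rk h)
  set F : Set E := Set.range x with hFdef
  have hF : ∀ y ∈ F, ∀ z ∈ F, rk y = rk z → y = z := by
    rintro _ ⟨i, rfl⟩ _ ⟨j, rfl⟩ h
    rw [hinj' i j h]
  have hKF : ∀ y ∈ K, y ∉ F := by
    rintro y hy ⟨i, rfl⟩
    exact hxK i hy
  have h1F : (1 : E) ∉ F := hKF 1 K.one_mem
  have hsqF : ∀ y ∈ F, y * y ∉ F := fun y _ => hKF _ (hsq y)
  obtain ⟨e, he⟩ := exists_measurableEmbedding_real (ℕ → ℝ)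
  obtain ⟨d, hd, hde⟩ := he.exists_measurable_extend measurable_id (fun _ => ⟨fun _ => 0⟩)
  have hde' : ∀ y, d (e y) = y := fun y => congrFun hde y
  set r : E → ℝ := fun y => if h : ∃ ξ, x ξ = y then e (w h.choose) else 0 with hr
  have hrx : ∀ ξ, r (x ξ) = e (w ξ) := by
    intro ξ
    have h : ∃ η, x η = x ξ := ⟨ξ, rfl⟩
    simp only [hr]
    rw [dif_pos h, hinj h.choose_spec]
  have hwinj : Function.Injective w := by
    intro a b hab
    by_contra hne
    rcases lt_or_gt_of_ne hne with h | h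
    · exact hwA b ⟨a, h, hab⟩
    · exact hwA a ⟨b, h, hab.symm⟩
  have hrF : Set.InjOn r F := by
    rintro _ ⟨i, rfl⟩ _ ⟨j, rfl⟩ h
    rw [hrx, hrx] at h
    rw [hwinj (he.injective h)]
  set ν : Measure ℝ := (rho μ).map e with hν
  have hνfin : IsFiniteMeasure ν := by rw [hν]; infer_instance
  have hν0 : ∀ t, ν {t} = 0 := by
    intro t
    rw [hν, Measure.map_apply he.measurable (measurableSet_singleton t)]
    apply rho_small
    apply hμ2
    refine Set.Countable.measure_zero (Set.Countable.image ?_ _) _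
    apply Set.Subsingleton.countable
    intro a ha b hb
    exact he.injective ((Set.mem_singleton_iff.1 ha).trans (Set.mem_singleton_iff.1 hb).symm)
  have hνF : ν (r '' F) ≠ 0 := by
    intro h0
    obtain ⟨N, hN1, hN2, hN3⟩ := exists_measurable_superset_of_null h0
    rw [hν, Measure.map_apply he.measurable hN2] at hN3
    obtain ⟨ξ, hξ⟩ := hM2 _ (he.measurable hN2) hN3
    apply hwM ξ
    rw [hξ]
    exact hN1 ⟨x ξ, ⟨ξ, rfl⟩, hrx ξ⟩
  obtain ⟨m, hm1, hm2⟩ := exists_measure_gen ν hν0 F r hνF (measure_ne_top _ _)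
  -- the set of squares
  have hJne : Nonempty J := by
    have : Nonempty (𝔠 : Cardinal.{0}).ord.ToType := by
      rw [← mk_ne_zero_iff]; simp [continuum_ne_zero]
    exact ⟨ix this.some⟩
  set B : Set (ℝ × Ds E) := {p | p.2.x ∈ Set.range k} ∩
    {p | (d p.1, (⟨Function.invFun k p.2.x⟩ : Ds J)) ∈
      {q : (ℕ → ℝ) × Ds J | q.1 ∈ PP C (L q.2.x.1.1) (pm q.2.x.1.2)}} with hB
  have hBm : MeasurableSet B := by
    refine MeasurableSet.inter ?_ ?_
    · exact measurable_snd (MeasurableSet.of_discrete (s := {z : Ds E | z.x ∈ Set.range k}))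
    · have h1 : Measurable fun p : ℝ × Ds E => (d p.1, (⟨Function.invFun k p.2.x⟩ : Ds J)) :=
        (hd.comp measurable_fst).prodMk
          ((Measurable.of_discrete (f := fun z : Ds E => (⟨Function.invFun k z.x⟩ : Ds J))).comp
            measurable_snd)
      exact h1 (PP_meas O hO (fun q : J => L q.1.1) (fun q : J => pm q.1.2))
  have hBF : ∀ a ∈ F, ∀ c, c ∉ F → ((r a, (⟨c⟩ : Ds E)) ∈ B ↔ a * a = c) := by
    rintro _ ⟨ξ, rfl⟩ c hc
    rw [(hx ξ).2]
    constructor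
    · rintro ⟨⟨q, hq⟩, h2⟩
      simp only [Set.mem_ofPred_eq] at h2 hq
      rw [hrx, hde', ← hq, Function.leftInverse_invFun hk1 q] at h2
      obtain ⟨h3, h4⟩ := PP_disj hCm (L := L) q.2 (hjj ξ) h2 (hwP ξ)
      have h5 : q = ix ξ := Subtype.ext (Prod.ext h3 (hpm h4))
      rw [← h5]; exact hq
    · intro h
      refine ⟨⟨ix ξ, h⟩, ?_⟩
      simp only [Set.mem_ofPred_eq]
      rw [hrx, hde', ← h, Function.leftInverse_invFun hk1 (ix ξ)]
      exact hwP ξ
  obtain ⟨A, hA1, hA2⟩ := borelianWrt_of (SF F r) _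
    (table_SF3 hE.le hrk hF h1F hrF hsqF B hBm hBF)
  refine ⟨A, ⟨@Measure.trim E (gen A) (SF F r) m hA1, ?_, ?_⟩, hA2⟩
  · rw [trim_measurableSet_eq hA1 MeasurableSet.univ]
    exact hm1
  · intro y hy
    rw [trim_measurableSet_eq hA1 hy]
    exact hm2 y (hA1 _ hy)

theorem ab_all {E : Type} [Group E] (hE : #E = 𝔠) : AbstractlyBorelian E := by
  by_cases hn : ∃ Y : Set ℝ, #Y < 𝔠 ∧ volume Y ≠ 0
  · obtain ⟨Y, hY, hY0⟩ := hn
    exact ab_nonnull hY hY0 hE
  push Not at hn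
  by_cases h1 : ∀ D : Subgroup E, #D < lift.{0} #(Set.Icc (0 : ℝ) 1) → ∃ x, x ∉ D ∧ x * x ∉ D
  · exact ab_of hE.le (Set.Icc 0 1) vol_Icc.1 vol_Icc.2 (Or.inl h1)
  by_cases h2 : ∃ c, ∃ S : Set E, lift.{0} #(Set.Icc (0 : ℝ) 1) ≤ #S ∧ ∀ x ∈ S, x * x = c ∧ x ≠ c
  · exact ab_of hE.le (Set.Icc 0 1) vol_Icc.1 vol_Icc.2 (Or.inr h2)
  push Not at h1 h2
  rw [card_Icc] at h1 h2
  obtain ⟨K, hK, hsq⟩ := h1
  refine ab_few hE hn K hK ?_ ?_
  · intro x
    by_cases hx : x ∈ K
    · exact K.mul_mem hx hx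
    · exact hsq x hx
  · intro c
    by_contra hcon
    rw [not_lt] at hcon
    have h3 : 𝔠 ≤ #({x : E | x * x = c} \ {c} : Set E) := by
      by_contra h4
      rw [not_le] at h4
      have h5 : {x : E | x * x = c} ⊆ ({x : E | x * x = c} \ {c}) ∪ {c} := by
        intro x hx
        by_cases h : x = c
        · exact Or.inr h
        · exact Or.inl ⟨hx, h⟩
      have h6 := (Cardinal.mk_le_mk_of_subset h5).trans (mk_union_le _ _)
      have h7 : #({x : E | x * x = c} \ {c} : Set E) + #({c} : Set E) < 𝔠 :=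
        add_lt_of_lt aleph0_le_continuum h4 (by
          rw [mk_singleton]; exact one_lt_aleph0.trans_le aleph0_le_continuum)
      exact absurd (hcon.trans h6) (not_le.2 h7)
    obtain ⟨x, hx, h8⟩ := h2 c _ h3
    exact hx.2 (h8 hx.1)

end Pool.Agent.R361.AB
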