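import Mathlib
import Pool.Agent.R361.AB.Full

/-! Transfer along isomorphisms, all universes (MP_c06a36_lc). -/

universe u

open Cardinal MeasureTheory

namespace Pool.Agent.R361.AB

lemma ab_transfer {E : Type u} [Group E] {E' : Type} [Group E'] (e : E ≃* E')
    (h : AbstractlyBorelian E') : AbstractlyBorelian E := by
  obtain ⟨A, ⟨m, hm1, hm2⟩, hA⟩ := h
  set A' : ℕ → Set E := fun n => e ⁻¹' (A n) with hA'
  have hgen : gen A' = (gen A).comap e := by
    unfold gen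
    rw [MeasurableSpace.comap_generateFrom]
    congr 1
    ext s
    constructor
    · rintro ⟨n, rfl⟩
      exact ⟨A n, ⟨n, rfl⟩, rfl⟩
    · rintro ⟨_, ⟨n, rfl⟩, rfl⟩
      exact ⟨n, rfl⟩
  have hpre : ∀ B, MeasurableSet[gen A] B → MeasurableSet[gen A'] (e ⁻¹' B) := by
    intro B hB
    rw [hgen]
    exact ⟨B, hB, rfl⟩
  have hsymm : ∀ S, MeasurableSet[gen A'] S → MeasurableSet[gen A] (e.symm ⁻¹' S) := by
    intro S hS
    rw [hgen] at hS
    obtain ⟨B, hB, rfl⟩ := hS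
    have : e.symm ⁻¹' (e ⁻¹' B) = B := by
      ext y; simp
    rw [this]; exact hB
  have hmeas : @Measurable E' E (gen A) (gen A') e.symm := fun S hS => hsymm S hS
  refine ⟨A', ⟨@Measure.map E' E (gen A) (gen A') e.symm m, ?_, ?_⟩, ?_⟩
  · rw [@Measure.map_apply E' E (gen A) (gen A') m e.symm hmeas Set.univ
      (@MeasurableSet.univ E (gen A'))]
    exact hm1
  · intro x hx
    rw [@Measure.map_apply E' E (gen A) (gen A') m e.symm hmeas {x} hx]
    have h1 : e.symm ⁻¹' {x} = {e x} := by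
      ext y
      simp only [Set.mem_preimage, Set.mem_singleton_iff]
      exact e.symm_apply_eq
    have h2 := hsymm _ hx
    rw [h1] at h2 ⊢
    exact hm2 _ h2
  · unfold BorelianWrt at hA ⊢
    let φ : E × E × E → E' × E' × E' := fun p => (e p.1, e p.2.1, e p.2.2)
    have h1 : @Measurable _ _ (MeasurableSpace.generateFrom {S : Set (E × E × E) |
        ∃ B₁ B₂ B₃ : Set E, MeasurableSet[gen A'] B₁ ∧ MeasurableSet[gen A'] B₂ ∧
        MeasurableSet[gen A'] B₃ ∧ S = {p | p.1 ∈ B₁ ∧ p.2.1 ∈ B₂ ∧ p.2.2 ∈ B₃}})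
        (MeasurableSpace.generateFrom {S : Set (E' × E' × E') |
        ∃ B₁ B₂ B₃ : Set E', MeasurableSet[gen A] B₁ ∧ MeasurableSet[gen A] B₂ ∧
        MeasurableSet[gen A] B₃ ∧ S = {p | p.1 ∈ B₁ ∧ p.2.1 ∈ B₂ ∧ p.2.2 ∈ B₃}}) φ := by
      refine @measurable_generateFrom _ _ (_) _ _ ?_
      rintro _ ⟨B₁, B₂, B₃, h1, h2, h3, rfl⟩
      apply MeasurableSpace.measurableSet_generateFrom
      exact ⟨e ⁻¹' B₁, e ⁻¹' B₂, e ⁻¹' B₃, hpre _ h1, hpre _ h2, hpre _ h3, rfl⟩
    have h2 : repr E = φ ⁻¹' (repr E') := by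
      ext ⟨a, b, c⟩
      change a * b = c ↔ e a * e b = e c
      rw [← map_mul]
      exact e.injective.eq_iff.symm
    rw [h2]
    exact h1 hA

/-- Every group of cardinality `𝔠` is abstractly Borelian. -/
theorem ab_full (E : Type u) [Group E] (hE : #E = 𝔠) : AbstractlyBorelian E := by
  obtain ⟨e0⟩ : Nonempty (E ≃ ℝ) := by
    rw [← Cardinal.lift_mk_eq', hE, Cardinal.mk_real]; simp
  have hs : Small.{0} E := Small.mk' e0
  refine ab_transfer (Shrink.mulEquiv (α := E)).symm (ab_all ?_)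
  rw [← Cardinal.mk_real]
  exact Cardinal.mk_congr ((equivShrink E).symm.trans e0)

end Pool.Agent.R361.AB
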